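import Mathlib

/-!
The zero estimate.
-/

namespace Pool.Agent.LibHT14

open Polynomial Finset

/-- the operator `d/dz + t` -/
noncomputable def dt (t : ℤ) (p : ℤ[X]) : ℤ[X] := derivative p + C t * p

theorem dt_add (t : ℤ) (p q : ℤ[X]) : dt t (p + q) = dt t p + dt t q := by
  unfold dt
  rw [derivative_add]
  ring

theorem dt_zero (t : ℤ) : dt t 0 = 0 := by simp [dt]

theorem dt_iter_add (t : ℤ) (p q : ℤ[X]) (j : ℕ) :
    (dt t)^[j] (p + q) = (dt t)^[j] p + (dt t)^[j] q := by
  induction j generalizing p q with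
  | zero => rfl
  | succ j ih => simp only [Function.iterate_succ, Function.comp_apply, dt_add, ih]

theorem dt_iter_sum {ι : Type*} (t : ℤ) (s : Finset ι) (f : ι → ℤ[X]) (j : ℕ) :
    (dt t)^[j] (∑ i ∈ s, f i) = ∑ i ∈ s, (dt t)^[j] (f i) := by
  classical
  induction s using Finset.induction_on with
  | empty =>
    simp only [sum_empty]
    induction j with
    | zero => rfl
    | succ j ih => rw [Function.iterate_succ, Function.comp_apply, dt_zero, ih]
  | insert a s ha ih => rw [sum_insert ha, sum_insert ha, dt_iter_add, ih]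

theorem dt_smul (t : ℤ) (c : ℤ) (p : ℤ[X]) : dt t (C c * p) = C c * dt t p := by
  unfold dt
  rw [derivative_C_mul]
  ring

theorem dt_iter_smul (t c : ℤ) (p : ℤ[X]) (j : ℕ) :
    (dt t)^[j] (C c * p) = C c * (dt t)^[j] p := by
  induction j generalizing p with
  | zero => rfl
  | succ j ih => simp only [Function.iterate_succ, Function.comp_apply, dt_smul, ih]

theorem dt_natDegree_le (t : ℤ) {p : ℤ[X]} {d : ℕ} (h : p.natDegree ≤ d) :
    (dt t p).natDegree ≤ d := by
  unfold dt
  refine (natDegree_add_le _ _).trans (max_le ((natDegree_derivative_le p).trans ?_)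
    ((natDegree_C_mul_le _ _).trans h))
  omega

theorem dt_coeff (t : ℤ) {p : ℤ[X]} {d : ℕ} (h : p.natDegree ≤ d) :
    (dt t p).coeff d = t * p.coeff d := by
  unfold dt
  rw [coeff_add, coeff_C_mul, coeff_derivative, coeff_eq_zero_of_natDegree_lt (n := d + 1)]
  · ring
  · omega

theorem dt_iter_natDegree_le (t : ℤ) {p : ℤ[X]} {d : ℕ} (h : p.natDegree ≤ d) (j : ℕ) :
    ((dt t)^[j] p).natDegree ≤ d := by
  induction j with
  | zero => exact h
  | succ j ih =>
    rw [Function.iterate_succ', Function.comp_apply]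
    exact dt_natDegree_le t ih

theorem dt_iter_coeff (t : ℤ) {p : ℤ[X]} {d : ℕ} (h : p.natDegree ≤ d) (j : ℕ) :
    ((dt t)^[j] p).coeff d = t ^ j * p.coeff d := by
  induction j with
  | zero => simp
  | succ j ih =>
    rw [Function.iterate_succ', Function.comp_apply, dt_coeff t (dt_iter_natDegree_le t h j), ih]
    ring

theorem coeff_prod_of_le {ι : Type*} (s : Finset ι) (f : ι → ℤ[X]) (d : ι → ℕ)
    (h : ∀ i ∈ s, (f i).natDegree ≤ d i) :
    (∏ i ∈ s, f i).natDegree ≤ ∑ i ∈ s, d i ∧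
      (∏ i ∈ s, f i).coeff (∑ i ∈ s, d i) = ∏ i ∈ s, (f i).coeff (d i) := by
  classical
  induction s using Finset.induction_on with
  | empty => simp
  | insert a s ha ih =>
    obtain ⟨h1, h2⟩ := ih fun i hi => h i (mem_insert_of_mem hi)
    have h3 := h a (mem_insert_self a s)
    rw [prod_insert ha, prod_insert ha, sum_insert ha]
    refine ⟨natDegree_mul_le.trans (add_le_add h3 h1), ?_⟩
    rw [coeff_mul_add_eq_of_natDegree_le h3 h1, h2]

/-- `(D + c)^s ((X - a)^s V)` at `a` -/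
theorem iter_eval (c a : ℤ) (s : ℕ) (V : ℤ[X]) :
    ((dt c)^[s] ((X - C a) ^ s * V)).eval a = (s.factorial : ℤ) * V.eval a := by
  induction s generalizing V with
  | zero => simp
  | succ s ih =>
    have h1 : dt c ((X - C a) ^ (s + 1) * V) =
        (X - C a) ^ s * (C ((s : ℤ) + 1) * V + (X - C a) * (derivative V + C c * V)) := by
      unfold dt
      rw [derivative_mul, derivative_X_sub_C_pow, pow_succ]
      simp only [Nat.add_sub_cancel, map_add, map_natCast, map_one, Nat.cast_add, Nat.cast_one]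
      ring
    rw [Function.iterate_succ, Function.comp_apply, h1, ih, Nat.factorial_succ]
    simp only [eval_add, eval_mul, eval_C, eval_sub, eval_X, sub_self, zero_mul, add_zero]
    push_cast
    ring

theorem rootMult_of_iter {W : ℤ[X]} (hW : W ≠ 0) (c a : ℤ) (m : ℕ)
    (h : ∀ j < m, ((dt c)^[j] W).eval a = 0) : m ≤ rootMultiplicity a W := by
  by_contra hlt
  push Not at hlt
  obtain ⟨V, h1, h2⟩ := exists_eq_pow_rootMultiplicity_mul_and_not_dvd W hW a
  have h3 := h _ hlt
  rw [h1] at h3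
  have h4 : rootMultiplicity a ((X - C a) ^ rootMultiplicity a W * V) = rootMultiplicity a W := by
    rw [← h1]
  rw [h4, iter_eval] at h3
  rcases mul_eq_zero.1 h3 with h5 | h5
  · exact Nat.factorial_ne_zero _ (by exact_mod_cast h5)
  · exact h2 (dvd_iff_isRoot.2 h5)

variable {ι : Type} [Fintype ι] [DecidableEq ι]

/-- the generalised Wronskian with the row exponents `e` -/
noncomputable def wr (τ : ι → ℤ) (A : ι → ℤ[X]) (e : ι → ℕ) : ℤ[X] :=
  Matrix.det (Matrix.of fun r i : ι => (dt (τ i))^[e r] (A i))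

theorem dt_prod (τ : ι → ℤ) (f : ι → ℤ[X]) :
    dt (∑ i, τ i) (∏ i, f i) = ∑ i, (∏ j ∈ univ.erase i, f j) * dt (τ i) (f i) := by
  unfold dt
  rw [derivative_prod_finset]
  simp only [mul_add, sum_add_distrib]
  congr 1
  rw [map_sum, sum_mul]
  refine sum_congr rfl fun i _ => ?_
  rw [← mul_prod_erase univ f (mem_univ i)]
  ring

theorem dt_wr (τ : ι → ℤ) (A : ι → ℤ[X]) (e : ι → ℕ) :
    dt (∑ i, τ i) (wr τ A e) = ∑ r, wr τ A (Function.update e r (e r + 1)) := by
  unfold wr
  simp only [Matrix.det_apply, Matrix.of_apply]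
  rw [sum_comm]
  have h0 : ∀ (s : Finset (Equiv.Perm ι)) (g : Equiv.Perm ι → ℤ[X]),
      dt (∑ i, τ i) (∑ σ ∈ s, g σ) = ∑ σ ∈ s, dt (∑ i, τ i) (g σ) :=
    fun s g => dt_iter_sum _ s g 1
  rw [h0]
  refine sum_congr rfl fun σ _ => ?_
  have h1 : dt (∑ i, τ i) (Equiv.Perm.sign σ • ∏ i, (dt (τ i))^[e (σ i)] (A i)) =
      Equiv.Perm.sign σ • dt (∑ i, τ i) (∏ i, (dt (τ i))^[e (σ i)] (A i)) := by
    rcases Int.units_eq_one_or (Equiv.Perm.sign σ) with h | h <;> rw [h]
    · simp
    · simp only [Units.neg_smul, one_smul]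
      unfold dt
      rw [derivative_neg]
      ring
  rw [h1, dt_prod, smul_sum, ← Equiv.sum_comp σ (fun r => Equiv.Perm.sign σ •
    ∏ i, (dt (τ i))^[Function.update e r (e r + 1) (σ i)] (A i))]
  refine sum_congr rfl fun i _ => ?_
  congr 1
  rw [← prod_erase_mul univ (fun j => (dt (τ j))^[Function.update e (σ i) (e (σ i) + 1) (σ j)] (A j))
    (mem_univ i)]
  congr 1
  · refine prod_congr rfl fun j hj => ?_
    rw [Function.update_of_ne]
    intro h
    exact (mem_erase.1 hj).1 (σ.injective h)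
  · rw [Function.update_self, Function.iterate_succ', Function.comp_apply]

theorem wr_natDegree (τ : ι → ℤ) (A : ι → ℤ[X]) (e : ι → ℕ) :
    (wr τ A e).natDegree ≤ ∑ i, (A i).natDegree := by
  unfold wr
  simp only [Matrix.det_apply, Matrix.of_apply]
  refine natDegree_sum_le_of_forall_le _ _ fun σ _ => ?_
  have h1 := (coeff_prod_of_le univ (fun i => (dt (τ i))^[e (σ i)] (A i))
    (fun i => (A i).natDegree) fun i _ => dt_iter_natDegree_le _ le_rfl _).1
  rcases Int.units_eq_one_or (Equiv.Perm.sign σ) with h | h <;> rw [h]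
  · simpa using h1
  · simpa using h1

theorem wr_coeff (τ : ι → ℤ) (A : ι → ℤ[X]) (e : ι → ℕ) :
    (wr τ A e).coeff (∑ i, (A i).natDegree) =
      Matrix.det (Matrix.of fun r i : ι => τ i ^ e r * (A i).leadingCoeff) := by
  unfold wr
  simp only [Matrix.det_apply, Matrix.of_apply]
  rw [finsetSum_coeff]
  refine sum_congr rfl fun σ _ => ?_
  have h1 := (coeff_prod_of_le univ (fun i => (dt (τ i))^[e (σ i)] (A i))
    (fun i => (A i).natDegree) fun i _ => dt_iter_natDegree_le _ le_rfl _).2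
  have h2 : ∀ i, ((dt (τ i))^[e (σ i)] (A i)).coeff (A i).natDegree =
      τ i ^ e (σ i) * (A i).leadingCoeff := fun i => dt_iter_coeff _ le_rfl _
  simp only [h2] at h1
  rw [← h1]
  rcases Int.units_eq_one_or (Equiv.Perm.sign σ) with h | h <;> rw [h] <;> simp

theorem wr_ne_zero (τ : ι → ℤ) (hτ : Function.Injective τ) (A : ι → ℤ[X]) (hA : ∀ i, A i ≠ 0)
    (E : ι ≃ Fin (Fintype.card ι)) : wr τ A (fun r => (E r : ℕ)) ≠ 0 := by
  intro h0
  have h1 := wr_coeff τ A fun r => (E r : ℕ)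
  rw [h0, coeff_zero] at h1
  have h2 : (Matrix.of fun r i : ι => τ i ^ (E r : ℕ) * (A i).leadingCoeff) =
      (Matrix.of fun r i : ι => τ i ^ (E r : ℕ)) *
        Matrix.diagonal fun i => (A i).leadingCoeff := by
    ext r i
    rw [Matrix.mul_diagonal]
    rfl
  have h3 : (Matrix.of fun r i : ι => τ i ^ (E r : ℕ)) =
      (Matrix.vandermonde fun j => τ (E.symm j)).transpose.submatrix E E := by
    ext r i
    simp [Matrix.vandermonde_apply]
  rw [h2, Matrix.det_mul, Matrix.det_diagonal, h3, Matrix.det_submatrix_equiv_self,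
    Matrix.det_transpose] at h1
  have h4 : (Matrix.vandermonde fun j => τ (E.symm j)).det ≠ 0 := by
    rw [Matrix.det_vandermonde_ne_zero_iff]
    exact hτ.comp E.symm.injective
  have h5 : ∏ i, (A i).leadingCoeff ≠ 0 := by
    rw [prod_ne_zero_iff]
    exact fun i _ => leadingCoeff_ne_zero.2 (hA i)
  exact (mul_ne_zero h4 h5) h1.symm

theorem wr_eval (τ : ι → ℤ) (A : ι → ℤ[X]) (a : ℤ) (v : ι → ℤ) (hv : v ≠ 0) (n : ℕ)
    (h : ∀ j < n, ∑ i, ((dt (τ i))^[j] (A i)).eval a * v i = 0) (m : ℕ) (e : ι → ℕ)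
    (he : ∀ r, e r + m < n) : ((dt (∑ i, τ i))^[m] (wr τ A e)).eval a = 0 := by
  induction m generalizing e with
  | zero =>
    simp only [Function.iterate_zero, id_eq]
    unfold wr
    have h1 := (evalRingHom a).map_det (Matrix.of fun r i : ι => (dt (τ i))^[e r] (A i))
    rw [coe_evalRingHom] at h1
    rw [h1, ← Matrix.exists_mulVec_eq_zero_iff]
    refine ⟨v, hv, ?_⟩
    ext r
    have h2 := h (e r) (by simpa using he r)
    simpa [Matrix.mulVec, dotProduct] using h2
  | succ m ih =>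
    rw [Function.iterate_succ, Function.comp_apply, dt_wr, dt_iter_sum, eval_finsetSum]
    refine sum_eq_zero fun r _ => ih _ fun r' => ?_
    by_cases h1 : r' = r
    · subst h1
      rw [Function.update_self]
      have := he r'
      omega
    · rw [Function.update_of_ne h1]
      have := he r'
      omega

omit [DecidableEq ι] in
/-- the zero estimate, all polynomials being non-zero -/
theorem zero_est_aux (τ : ι → ℤ) (hτ : Function.Injective τ) (A : ι → ℤ[X]) (hA : ∀ i, A i ≠ 0)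
    [Nonempty ι] (I : Finset ℤ) (v : ℤ → ι → ℤ) (hv : ∀ a ∈ I, v a ≠ 0) (n : ℕ)
    (h : ∀ a ∈ I, ∀ j < n, ∑ i, ((dt (τ i))^[j] (A i)).eval a * v a i = 0) :
    I.card * (n + 1 - Fintype.card ι) ≤ ∑ i, (A i).natDegree := by
  classical
  have hc : 1 ≤ Fintype.card ι := Fintype.card_pos
  let E := Fintype.equivFin ι
  set W := wr τ A (fun r => (E r : ℕ)) with hWdef
  have hW : W ≠ 0 := wr_ne_zero τ hτ A hA E
  set m := n + 1 - Fintype.card ι with hm
  have h1 : ∀ a ∈ I, m ≤ rootMultiplicity a W := by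
    intro a ha
    refine rootMult_of_iter hW (∑ i, τ i) a m fun j hj => ?_
    refine wr_eval τ A a (v a) (hv a ha) n (h a ha) j _ fun r => ?_
    have := (E r).2
    omega
  rcases Nat.eq_zero_or_pos m with h0 | h0
  · rw [h0, mul_zero]
    exact Nat.zero_le _
  have h2 : I ⊆ W.roots.toFinset := by
    intro a ha
    rw [Multiset.mem_toFinset, ← Multiset.count_pos, count_roots]
    exact lt_of_lt_of_le h0 (h1 a ha)
  calc I.card * m = ∑ a ∈ I, m := by rw [sum_const, smul_eq_mul]
    _ ≤ ∑ a ∈ I, W.roots.count a := sum_le_sum fun a ha => by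
        rw [count_roots]
        exact h1 a ha
    _ ≤ ∑ a ∈ W.roots.toFinset, W.roots.count a :=
        sum_le_sum_of_subset h2
    _ = Multiset.card W.roots := Multiset.toFinset_sum_count_eq _
    _ ≤ W.natDegree := card_roots' W
    _ ≤ _ := wr_natDegree τ A _

theorem zero_est {T : ℕ} (A : Fin T → ℤ[X]) (hA : A ≠ 0) (d : Fin T → ℕ)
    (hd : ∀ t, (A t).natDegree ≤ d t) (I : Finset ℤ) (u : ℤ → ℤ) (hu : ∀ a ∈ I, u a ≠ 0) (n : ℕ)
    (h : ∀ a ∈ I, ∀ j < n, ∑ t : Fin T, u a ^ (t : ℕ) * ((dt ((t : ℕ) : ℤ))^[j] (A t)).eval a = 0) :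
    I.card * (n + 1 - T) ≤ ∑ t, d t := by
  classical
  obtain ⟨t₀, ht₀⟩ : ∃ t, A t ≠ 0 := by
    by_contra hno
    push Not at hno
    exact hA (funext hno)
  let ι := {t : Fin T // A t ≠ 0}
  have hne : Nonempty ι := ⟨⟨t₀, ht₀⟩⟩
  have hz : ∀ (c : ℤ) (j : ℕ), (dt c)^[j] (0 : ℤ[X]) = 0 := by
    intro c j
    have := dt_iter_sum (ι := ℕ) c ∅ (fun _ => 0) j
    simpa using this
  have hinj : Function.Injective (fun i : ι => (((i : Fin T) : ℕ) : ℤ)) := by
    intro i i' hii
    apply Subtype.ext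
    apply Fin.ext
    have h2 : (((i : Fin T) : ℕ) : ℤ) = (((i' : Fin T) : ℕ) : ℤ) := hii
    exact_mod_cast h2
  have hsum : ∀ f : Fin T → ℤ, (∀ t, A t = 0 → f t = 0) → ∑ i : ι, f i = ∑ t, f t := by
    intro f hf
    have h2 : ∑ t ∈ univ.filter (fun t => A t ≠ 0), f t = ∑ t, f t := by
      refine sum_subset (subset_univ _) fun t _ ht => hf t ?_
      by_contra h3
      exact ht (mem_filter.2 ⟨mem_univ _, h3⟩)
    rw [← h2]
    exact (sum_subtype (univ.filter fun t => A t ≠ 0) (fun t => by simp) f).symm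
  have h1 := zero_est_aux (ι := ι) (fun i => (((i : Fin T) : ℕ) : ℤ)) hinj (fun i => A i)
    (fun i => i.2) I (fun a i => u a ^ ((i : Fin T) : ℕ)) (by
      intro a ha h0
      have := congrFun h0 ⟨t₀, ht₀⟩
      exact pow_ne_zero _ (hu a ha) this) n (by
      intro a ha j hj
      rw [← h a ha j hj]
      rw [hsum (fun t => ((dt ((t : ℕ) : ℤ))^[j] (A t)).eval a * u a ^ (t : ℕ)) (by
        intro t ht
        rw [ht, hz, eval_zero, zero_mul])]
      exact sum_congr rfl fun t _ => mul_comm _ _)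
  have h2 : Fintype.card ι ≤ T := by
    have := Fintype.card_subtype_le (fun t : Fin T => A t ≠ 0)
    rwa [Fintype.card_fin] at this
  have h3 : ∑ i : ι, (A i).natDegree ≤ ∑ t, d t := by
    have h4 : ∑ i : ι, (A i).natDegree = ∑ t ∈ univ.filter (fun t => A t ≠ 0), (A t).natDegree :=
      (sum_subtype (p := fun t => A t ≠ 0) (univ.filter fun t => A t ≠ 0) (fun t => by simp)
        (fun t => (A t).natDegree)).symm
    rw [h4]
    exact (sum_le_sum_of_subset (subset_univ _)).trans (sum_le_sum fun t _ => hd t)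
  refine le_trans (Nat.mul_le_mul_left _ ?_) (h1.trans h3)
  omega

end Pool.Agent.LibHT14
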