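import Mathlib
import Pool.Agent.LibHT14.Zero

/-!
The analytic part: bounds for derivatives through few Taylor coefficients.
-/

namespace Pool.Agent.LibHT14

open Polynomial Finset Metric

/-- exponential polynomials -/
noncomputable def HH {T : ℕ} (c : Fin T → ℂ) (A : Fin T → ℤ[X]) (z : ℂ) : ℂ :=
  ∑ t : Fin T, c t * (aeval z (A t) * Complex.exp ((t : ℕ) * z))

theorem hasDerivAt_HH {T : ℕ} (c : Fin T → ℂ) (A : Fin T → ℤ[X]) (z : ℂ) :
    HasDerivAt (HH c A) (HH c (fun t => dt ((t : ℕ) : ℤ) (A t)) z) z := by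
  unfold HH
  refine HasDerivAt.fun_sum fun t _ => ?_
  refine HasDerivAt.const_mul (c t) ?_
  have h1 := (Polynomial.hasDerivAt_aeval (A t) z).mul
    (((hasDerivAt_id z).const_mul ((t : ℕ) : ℂ)).cexp)
  refine h1.congr_deriv ?_
  unfold dt
  simp only [map_add, map_mul, aeval_C, id_eq, mul_one]
  simp only [eq_intCast, Int.cast_natCast]
  ring

theorem differentiable_HH {T : ℕ} (c : Fin T → ℂ) (A : Fin T → ℤ[X]) :
    Differentiable ℂ (HH c A) := fun z => (hasDerivAt_HH c A z).differentiableAt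

theorem iteratedDeriv_HH {T : ℕ} (c : Fin T → ℂ) (A : Fin T → ℤ[X]) (j : ℕ) :
    iteratedDeriv j (HH c A) = HH c (fun t => (dt ((t : ℕ) : ℤ))^[j] (A t)) := by
  induction j generalizing A with
  | zero => rfl
  | succ j ih =>
    have h1 : deriv (HH c A) = HH c (fun t => dt ((t : ℕ) : ℤ) (A t)) :=
      funext fun z => (hasDerivAt_HH c A z).deriv
    rw [iteratedDeriv_succ', h1, ih]
    rfl

theorem sup_bound {f : ℂ → ℂ} (hf : Differentiable ℂ f) {ρ B θ : ℝ} (hρ : 0 < ρ)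
    (hθ0 : 0 ≤ θ) (hθ1 : θ < 1) (hB : ∀ z, ‖z‖ = ρ → ‖f z‖ ≤ B) (n : ℕ) (b : ℕ → ℝ)
    (hb : ∀ ν < n, ‖iteratedDeriv ν f 0‖ / (ν.factorial : ℝ) * ρ ^ ν ≤ b ν) {z : ℂ}
    (hz : ‖z‖ ≤ θ * ρ) : ‖f z‖ ≤ ∑ ν ∈ range n, b ν * θ ^ ν + B * θ ^ n / (1 - θ) := by
  have hsum := Complex.hasSum_taylorSeries_of_entire hf 0 z
  rw [← hsum.tsum_eq]
  have hcauchy : ∀ ν : ℕ, ‖iteratedDeriv ν f 0‖ / (ν.factorial : ℝ) * ρ ^ ν ≤ B := by
    intro ν
    have h1 := Complex.norm_iteratedDeriv_le_of_forall_mem_sphere_norm_le (n := ν) (c := 0)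
      (C := B) hρ (hf.diffContOnCl) (fun w hw => hB w (by simpa using hw))
    have h2 : (0 : ℝ) < ν.factorial := by exact_mod_cast Nat.factorial_pos ν
    have h3 : (0 : ℝ) < ρ ^ ν := pow_pos hρ ν
    rw [div_mul_eq_mul_div, div_le_iff₀ h2]
    rw [le_div_iff₀ h3] at h1
    linarith
  have hterm : ∀ ν : ℕ, ‖((ν.factorial : ℂ))⁻¹ • (z - 0) ^ ν • iteratedDeriv ν f 0‖ ≤
      ‖iteratedDeriv ν f 0‖ / (ν.factorial : ℝ) * ρ ^ ν * θ ^ ν := by
    intro ν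
    rw [norm_smul, norm_smul, norm_inv, sub_zero, norm_pow, Complex.norm_natCast]
    have h1 : ‖z‖ ^ ν ≤ (θ * ρ) ^ ν := pow_le_pow_left₀ (norm_nonneg _) hz ν
    rw [mul_pow] at h1
    have h2 : (0 : ℝ) ≤ (ν.factorial : ℝ)⁻¹ * ‖iteratedDeriv ν f 0‖ := by positivity
    calc (ν.factorial : ℝ)⁻¹ * (‖z‖ ^ ν * ‖iteratedDeriv ν f 0‖)
        = (ν.factorial : ℝ)⁻¹ * ‖iteratedDeriv ν f 0‖ * ‖z‖ ^ ν := by ring
      _ ≤ (ν.factorial : ℝ)⁻¹ * ‖iteratedDeriv ν f 0‖ * (θ ^ ν * ρ ^ ν) :=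
          mul_le_mul_of_nonneg_left h1 h2
      _ = _ := by ring
  have hB0 : 0 ≤ B := by
    have := hcauchy 0
    refine le_trans ?_ this
    positivity
  have hg : HasSum (fun ν : ℕ => if ν < n then b ν * θ ^ ν else B * θ ^ ν)
      (∑ ν ∈ range n, b ν * θ ^ ν + B * θ ^ n / (1 - θ)) := by
    have h1 : HasSum (fun i : ℕ => B * θ ^ n * θ ^ i) (B * θ ^ n / (1 - θ)) := by
      have := (hasSum_geometric_of_lt_one hθ0 hθ1).mul_left (B * θ ^ n)
      rwa [← div_eq_mul_inv] at this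
    have h2 : (fun i : ℕ => if i + n < n then b (i + n) * θ ^ (i + n) else B * θ ^ (i + n)) =
        fun i : ℕ => B * θ ^ n * θ ^ i := by
      funext i
      rw [if_neg (by omega), pow_add]
      ring
    have h3 : ∑ ν ∈ range n, (if ν < n then b ν * θ ^ ν else B * θ ^ ν) =
        ∑ ν ∈ range n, b ν * θ ^ ν :=
      sum_congr rfl fun ν hν => if_pos (mem_range.1 hν)
    rw [← h3, add_comm]
    rw [← hasSum_nat_add_iff (f := fun ν : ℕ => if ν < n then b ν * θ ^ ν else B * θ ^ ν) n, h2]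
    exact h1
  refine tsum_of_norm_bounded hg fun ν => (hterm ν).trans ?_
  by_cases h : ν < n
  · rw [if_pos h]
    exact mul_le_mul_of_nonneg_right (hb ν h) (pow_nonneg hθ0 ν)
  · rw [if_neg h]
    exact mul_le_mul_of_nonneg_right (hcauchy ν) (pow_nonneg hθ0 ν)

theorem deriv_bound {f : ℂ → ℂ} (hf : Differentiable ℂ f) {a : ℂ} {C : ℝ}
    (hC : ∀ z, ‖z‖ ≤ ‖a‖ + 1 → ‖f z‖ ≤ C) (j : ℕ) : ‖iteratedDeriv j f a‖ ≤ j.factorial * C := by
  have h1 := Complex.norm_iteratedDeriv_le_of_forall_mem_sphere_norm_le (n := j) (c := a)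
    (C := C) (R := 1) one_pos (hf.diffContOnCl) (fun w hw => hC w (by
      rw [mem_sphere, dist_eq_norm] at hw
      calc ‖w‖ = ‖a + (w - a)‖ := by ring_nf
        _ ≤ ‖a‖ + ‖w - a‖ := norm_add_le _ _
        _ = ‖a‖ + 1 := by rw [hw]))
  simpa using h1

end Pool.Agent.LibHT14
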