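import Mathlib

/-!
Pigeonhole principle with weights.
-/

namespace Pool.Agent.LibHT14

theorem pigeon {S G : Type} [Fintype S] [Fintype G] (P : S → ℕ) (N : G → ℕ)
    (hN : ∀ g, 0 < N g) (L : (S → ℤ) → G → ℝ)
    (hL : ∀ p p' : S → ℤ, ∀ g, L (p - p') g = L p g - L p' g) (B : ℝ) (hB : 0 < B)
    (hb : ∀ p : S → ℤ, (∀ s, 0 ≤ p s ∧ p s ≤ P s) → ∀ g, |L p g| ≤ B)
    (hcard : ∏ g, (N g + 1) < ∏ s, (P s + 1)) :
    ∃ p : S → ℤ, p ≠ 0 ∧ (∀ s, |p s| ≤ P s) ∧ ∀ g, |L p g| ≤ 2 * B / N g := by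
  classical
  let y : (∀ s, Fin (P s + 1)) → G → ℝ := fun p g =>
    (L (fun s => ((p s : ℕ) : ℤ)) g + B) * N g / (2 * B)
  have hy0 : ∀ p g, 0 ≤ y p g ∧ y p g ≤ N g := by
    intro p g
    have h1 := hb (fun s => ((p s : ℕ) : ℤ)) (fun s => ⟨by positivity, by
      have := (p s).2
      exact_mod_cast (by omega : (p s : ℕ) ≤ P s)⟩) g
    rw [abs_le] at h1
    have h2 : (0 : ℝ) ≤ N g := Nat.cast_nonneg _
    refine ⟨div_nonneg (mul_nonneg (by linarith) h2) (by linarith), ?_⟩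
    rw [div_le_iff₀ (by linarith)]
    nlinarith
  let f : (∀ s, Fin (P s + 1)) → ∀ g, Fin (N g + 1) := fun p g =>
    ⟨⌊y p g⌋₊, by
      have h1 : ⌊y p g⌋₊ ≤ N g := by
        have := Nat.floor_le_floor (hy0 p g).2
        rwa [Nat.floor_natCast] at this
      omega⟩
  have hc : Fintype.card (∀ g, Fin (N g + 1)) < Fintype.card (∀ s, Fin (P s + 1)) := by
    rw [Fintype.card_pi, Fintype.card_pi]
    simpa using hcard
  obtain ⟨p, p', hne, hf⟩ := Fintype.exists_ne_map_eq_of_card_lt f hc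
  refine ⟨(fun s => ((p s : ℕ) : ℤ)) - fun s => ((p' s : ℕ) : ℤ), ?_, ?_, ?_⟩
  · intro h
    apply hne
    funext s
    have h1 := congrFun h s
    simp only [Pi.sub_apply, Pi.zero_apply] at h1
    apply Fin.ext
    have : ((p s : ℕ) : ℤ) = ((p' s : ℕ) : ℤ) := by linarith
    exact_mod_cast this
  · intro s
    simp only [Pi.sub_apply]
    have h1 := (p s).2
    have h2 := (p' s).2
    rw [abs_le]
    constructor <;> omega
  · intro g
    rw [hL]
    have h1 : ⌊y p g⌋₊ = ⌊y p' g⌋₊ := congrArg Fin.val (congrFun hf g)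
    have h2 := Nat.floor_le (hy0 p g).1
    have h3 := Nat.lt_floor_add_one (y p g)
    have h4 := Nat.floor_le (hy0 p' g).1
    have h5 := Nat.lt_floor_add_one (y p' g)
    rw [h1] at h2 h3
    have h6 : |y p g - y p' g| ≤ 1 := by
      rw [abs_le]
      constructor <;> linarith
    have h7 : y p g - y p' g = (L (fun s => ((p s : ℕ) : ℤ)) g -
        L (fun s => ((p' s : ℕ) : ℤ)) g) * (N g / (2 * B)) := by
      simp only [y]
      ring
    have h8 : (0 : ℝ) < N g := by exact_mod_cast hN g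
    have h9 : (0 : ℝ) < N g / (2 * B) := by positivity
    rw [h7, abs_mul, abs_of_pos h9] at h6
    rw [le_div_iff₀ h8]
    rw [← mul_div_assoc, div_le_one (by linarith)] at h6
    linarith

end Pool.Agent.LibHT14
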