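import Mathlib
import Pool.Agent.LibHT14.Zero
import Pool.Agent.LibHT14.Ana
import Pool.Agent.LibHT14.Pigeon

/-!
The main contradiction, with explicit numerical hypotheses.
-/

namespace Pool.Agent.LibHT14

open Polynomial Finset Metric

variable {T : ℕ} {Nn : Fin T → ℕ}

/-- the polynomials with the coefficients `p` -/
noncomputable def poly (p : (Σ t : Fin T, Fin (Nn t)) → ℤ) (t : Fin T) : ℤ[X] :=
  ∑ s : Fin (Nn t), C (p ⟨t, s⟩) * X ^ (s : ℕ)

theorem poly_sub (p p' : (Σ t : Fin T, Fin (Nn t)) → ℤ) (t : Fin T) :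
    poly (p - p') t = poly p t + C (-1) * poly p' t := by
  unfold poly
  rw [mul_sum, ← sum_add_distrib]
  refine sum_congr rfl fun s _ => ?_
  simp only [Pi.sub_apply, map_sub, map_neg, map_one]
  ring

theorem poly_natDegree (p : (Σ t : Fin T, Fin (Nn t)) → ℤ) (t : Fin T) :
    (poly p t).natDegree ≤ Nn t - 1 := by
  unfold poly
  refine natDegree_sum_le_of_forall_le _ _ fun s _ => ?_
  refine (natDegree_C_mul_X_pow_le _ _).trans ?_
  have := s.2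
  omega

theorem poly_ne (p : (Σ t : Fin T, Fin (Nn t)) → ℤ) (hp : p ≠ 0) :
    (fun t => poly p t) ≠ 0 := by
  intro h
  apply hp
  funext g
  obtain ⟨t, s⟩ := g
  have h1 := congrArg (fun q : ℤ[X] => q.coeff (s : ℕ)) (congrFun h t)
  simp only [poly, finsetSum_coeff, coeff_C_mul, coeff_X_pow, Pi.zero_apply, coeff_zero] at h1
  rw [sum_eq_single s] at h1
  · simpa using h1
  · intro s' _ hs'
    rw [if_neg, mul_zero]
    intro h2
    exact hs' (Fin.ext h2.symm)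
  · intro h2
    exact absurd (mem_univ s) h2

/-- the coefficients of `H_r` -/
noncomputable def cc (x : ℝ) (r : ℕ) (t : Fin T) : ℂ := ((x ^ (t : ℕ) * ((t : ℕ).choose r : ℝ) : ℝ) : ℂ)

theorem norm_cc {x : ℝ} (hx : 0 ≤ x) (r : ℕ) (t : Fin T) :
    ‖cc x r t‖ ≤ x ^ (t : ℕ) * 2 ^ T := by
  unfold cc
  rw [Complex.norm_real, Real.norm_of_nonneg (by positivity)]
  refine mul_le_mul_of_nonneg_left ?_ (by positivity)
  have h1 : (t : ℕ).choose r ≤ 2 ^ (t : ℕ) := Nat.choose_le_two_pow _ _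
  have h2 : 2 ^ (t : ℕ) ≤ 2 ^ T := Nat.pow_le_pow_right (by norm_num) t.2.le
  exact_mod_cast h1.trans h2

theorem HH_bound (P : (Σ t : Fin T, Fin (Nn t)) → ℕ) {x ρ B : ℝ} (hx : 0 ≤ x) (hρ : 1 ≤ ρ)
    (hB : ∑ g, (P g : ℝ) * (x ^ (g.1 : ℕ) * 2 ^ T * (ρ ^ (g.2 : ℕ) * Real.exp (T * ρ))) ≤ B)
    (p : (Σ t : Fin T, Fin (Nn t)) → ℤ) (hp : ∀ g, |p g| ≤ P g) (r : ℕ) {z : ℂ} (hz : ‖z‖ ≤ ρ) :
    ‖HH (cc x r) (poly p) z‖ ≤ B := by
  refine le_trans ?_ hB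
  rw [Fintype.sum_sigma]
  unfold HH
  refine norm_sum_le_of_le _ fun t _ => ?_
  rw [norm_mul, norm_mul]
  have h1 := norm_cc hx r t
  have h2 : ‖aeval z (poly p t)‖ ≤ ∑ s : Fin (Nn t), (P ⟨t, s⟩ : ℝ) * ρ ^ (s : ℕ) := by
    unfold poly
    rw [map_sum]
    refine norm_sum_le_of_le _ fun s _ => ?_
    rw [map_mul, map_pow, aeval_X, aeval_C, norm_mul, norm_pow]
    refine mul_le_mul ?_ (pow_le_pow_left₀ (norm_nonneg _) hz _) (by positivity) (by positivity)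
    have h3 := hp ⟨t, s⟩
    simp only [eq_intCast]
    rw [Complex.norm_intCast]
    exact_mod_cast h3
  have h3 : ‖Complex.exp ((t : ℕ) * z)‖ ≤ Real.exp (T * ρ) := by
    refine (Complex.norm_exp_le_exp_norm _).trans (Real.exp_le_exp.2 ?_)
    rw [norm_mul, Complex.norm_natCast]
    refine mul_le_mul ?_ hz (norm_nonneg _) (by positivity)
    exact_mod_cast t.2.le
  calc ‖cc x r t‖ * (‖aeval z (poly p t)‖ * ‖Complex.exp ((t : ℕ) * z)‖)
      ≤ (x ^ (t : ℕ) * 2 ^ T) * ((∑ s : Fin (Nn t), (P ⟨t, s⟩ : ℝ) * ρ ^ (s : ℕ)) *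
        Real.exp (T * ρ)) := by
        refine mul_le_mul h1 (mul_le_mul h2 h3 (norm_nonneg _) ?_) (by positivity) (by positivity)
        exact sum_nonneg fun s _ => by positivity
    _ = _ := by
        rw [sum_mul, mul_sum]
        refine sum_congr rfl fun s _ => ?_
        ring

/-- the normalised Taylor coefficients -/
noncomputable def LL (x ρ : ℝ) (p : (Σ t : Fin T, Fin (Nn t)) → ℤ) (r ν : ℕ) : ℝ :=
  (∑ t : Fin T, x ^ (t : ℕ) * ((t : ℕ).choose r : ℝ) *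
    ((((dt ((t : ℕ) : ℤ))^[ν] (poly p t)).eval 0 : ℤ) : ℝ)) / (ν.factorial : ℝ) * ρ ^ ν

theorem LL_sub (x ρ : ℝ) (p p' : (Σ t : Fin T, Fin (Nn t)) → ℤ) (r ν : ℕ) :
    LL x ρ (p - p') r ν = LL x ρ p r ν - LL x ρ p' r ν := by
  unfold LL
  rw [← sub_mul, ← sub_div, ← sum_sub_distrib]
  congr 2
  refine sum_congr rfl fun t _ => ?_
  rw [poly_sub, dt_iter_add, dt_iter_smul]
  simp only [eval_add, eval_mul, eval_C]
  push_cast
  ring

theorem aeval_intCast (q : ℤ[X]) (a : ℤ) : aeval ((a : ℝ) : ℂ) q = ((q.eval a : ℤ) : ℂ) := by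
  have h1 : ((a : ℝ) : ℂ) = algebraMap ℤ ℂ a := by simp
  rw [h1, aeval_algebraMap_apply]
  simp

theorem LL_eq {x ρ : ℝ} (hρ : 0 ≤ ρ) (p : (Σ t : Fin T, Fin (Nn t)) → ℤ) (r ν : ℕ) :
    ‖iteratedDeriv ν (HH (cc x r) (poly p)) 0‖ / (ν.factorial : ℝ) * ρ ^ ν = |LL x ρ p r ν| := by
  unfold LL
  rw [abs_mul, abs_div, abs_of_nonneg (pow_nonneg hρ ν), Nat.abs_cast, iteratedDeriv_HH]
  congr 2
  rw [← Real.norm_eq_abs, ← Complex.norm_real]
  congr 1
  unfold HH cc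
  push_cast
  refine sum_congr rfl fun t _ => ?_
  have h1 := aeval_intCast ((dt ((t : ℕ) : ℤ))^[ν] (poly p t)) 0
  simp only [Int.cast_zero, Complex.ofReal_zero] at h1
  rw [h1]
  simp

theorem main_contra (P : (Σ t : Fin T, Fin (Nn t)) → ℕ) (n : Fin T → ℕ)
    (Nb : (Σ r : Fin T, Fin (n r)) → ℕ) (hNb : ∀ g, 0 < Nb g) {x ρ θ ε B A : ℝ} (hx : 0 ≤ x)
    (hρ : 1 ≤ ρ) (hθ0 : 0 ≤ θ) (hθ : θ ≤ 1 / 2) (hε : 0 ≤ ε) (hA : A + 1 ≤ θ * ρ)
    (hB : ∑ g, (P g : ℝ) * (x ^ (g.1 : ℕ) * 2 ^ T * (ρ ^ (g.2 : ℕ) * Real.exp (T * ρ))) ≤ B)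
    (hB0 : 0 < B) (hcard : ∏ g, (Nb g + 1) < ∏ g, (P g + 1)) (I : Finset ℤ)
    (hI : ∀ a ∈ I, 0 ≤ a ∧ (a : ℝ) ≤ A) (u : ℤ → ℤ) (hu : ∀ a ∈ I, u a ≠ 0) (d : ℤ → ℝ)
    (hd : ∀ a ∈ I, 0 ≤ d a ∧ d a ≤ ε)
    (hud : ∀ a ∈ I, (u a : ℝ) = x * Real.exp a * (1 - d a)) (n' : ℕ)
    (hsmall : ∀ j < n', (j.factorial : ℝ) * ∑ r : Fin T, ε ^ (r : ℕ) *
      (∑ ν : Fin (n r), 2 * B / Nb ⟨r, ν⟩ * θ ^ (ν : ℕ) + 2 * B * θ ^ (n r)) < 1)
    (hzero : ∑ t, (Nn t - 1) < I.card * (n' + 1 - T)) : False := by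
  classical
  have hρ0 : 0 < ρ := by linarith
  obtain ⟨p, hp0, hpP, hpL⟩ := pigeon P Nb hNb (fun p g => LL x ρ p (g.1 : ℕ) (g.2 : ℕ))
    (fun p p' g => LL_sub x ρ p p' _ _) B hB0 (by
      intro p hp g
      have hp' : ∀ g, |p g| ≤ P g := fun g => by
        rw [abs_of_nonneg (hp g).1]
        exact (hp g).2
      rw [← LL_eq hρ0.le]
      have h1 := Complex.norm_iteratedDeriv_le_of_forall_mem_sphere_norm_le (n := (g.2 : ℕ))
        (c := 0) (C := B) hρ0 ((differentiable_HH (cc x (g.1 : ℕ)) (poly p)).diffContOnCl)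
        (fun w hw => HH_bound P hx hρ hB p hp' _ (by
          rw [mem_sphere, dist_zero_right] at hw
          exact hw.le))
      have h2 : (0 : ℝ) < (g.2 : ℕ).factorial := by exact_mod_cast Nat.factorial_pos _
      have h3 : (0 : ℝ) < ρ ^ (g.2 : ℕ) := pow_pos hρ0 _
      rw [div_mul_eq_mul_div, div_le_iff₀ h2]
      rw [le_div_iff₀ h3] at h1
      linarith) hcard
  have hH : ∀ (r : Fin T) (z : ℂ), ‖z‖ ≤ θ * ρ → ‖HH (cc x (r : ℕ)) (poly p) z‖ ≤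
      ∑ ν : Fin (n r), 2 * B / Nb ⟨r, ν⟩ * θ ^ (ν : ℕ) + 2 * B * θ ^ (n r) := by
    intro r z hz
    have h1 := sup_bound (differentiable_HH (cc x (r : ℕ)) (poly p)) hρ0 hθ0
      (by linarith : θ < 1) (fun w hw => HH_bound P hx hρ hB p hpP (r : ℕ) (z := w) hw.le) (n r)
      (fun ν => if h : ν < n r then 2 * B / Nb ⟨r, ⟨ν, h⟩⟩ else 0) (by
        intro ν hν
        rw [LL_eq hρ0.le, dif_pos hν]
        exact hpL ⟨r, ⟨ν, hν⟩⟩) hz
    refine h1.trans (add_le_add (le_of_eq ?_) ?_)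
    · rw [← Fin.sum_univ_eq_sum_range (fun ν => (if h : ν < n r then 2 * B / Nb ⟨r, ⟨ν, h⟩⟩
        else 0) * θ ^ ν) (n r)]
      refine sum_congr rfl fun ν _ => ?_
      rw [dif_pos ν.2]
    · rw [div_le_iff₀ (by linarith)]
      have h2 : 0 ≤ B * θ ^ (n r) := by positivity
      nlinarith
  have hF : ∀ a ∈ I, ∀ j < n', ∑ t : Fin T, u a ^ (t : ℕ) *
      ((dt ((t : ℕ) : ℤ))^[j] (poly p t)).eval a = 0 := by
    intro a ha j hj
    obtain ⟨ha0, haA⟩ := hI a ha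
    have ha0' : (0 : ℝ) ≤ a := by exact_mod_cast ha0
    obtain ⟨hd0, hdε⟩ := hd a ha
    have hlt : |((∑ t : Fin T, u a ^ (t : ℕ) *
        ((dt ((t : ℕ) : ℤ))^[j] (poly p t)).eval a : ℤ) : ℝ)| < 1 := by
      have hexp : ((∑ t : Fin T, u a ^ (t : ℕ) *
          ((dt ((t : ℕ) : ℤ))^[j] (poly p t)).eval a : ℤ) : ℝ) =
          ∑ r : Fin T, (-d a) ^ (r : ℕ) * ∑ t : Fin T, x ^ (t : ℕ) * ((t : ℕ).choose r : ℝ) *
            (((((dt ((t : ℕ) : ℤ))^[j] (poly p t)).eval a : ℤ) : ℝ) *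
              Real.exp ((t : ℕ) * a)) := by
        simp only [mul_sum]
        rw [sum_comm]
        push_cast
        refine sum_congr rfl fun t _ => ?_
        rw [hud a ha, mul_pow, mul_pow, ← Real.exp_nat_mul]
        have hbin : (1 - d a) ^ (t : ℕ) = ∑ r : Fin T, (-d a) ^ (r : ℕ) * ((t : ℕ).choose r : ℝ) := by
          rw [Fin.sum_univ_eq_sum_range (fun r => (-d a) ^ r * ((t : ℕ).choose r : ℝ)) T]
          have h1 : (1 - d a) ^ (t : ℕ) = (-d a + 1) ^ (t : ℕ) := by ring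
          rw [h1, add_pow]
          simp only [one_pow, mul_one]
          refine sum_subset (fun r hr => ?_) fun r _ hr => ?_
          · rw [mem_range] at hr ⊢
            have := t.2
            omega
          · rw [mem_range, not_lt] at hr
            rw [Nat.choose_eq_zero_of_lt (by omega)]
            simp
        rw [hbin, mul_sum, sum_mul]
        refine sum_congr rfl fun r _ => ?_
        ring
      rw [hexp]
      refine lt_of_le_of_lt (abs_sum_le_sum_abs _ _) (lt_of_le_of_lt ?_ (hsmall j hj))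
      rw [mul_sum]
      refine sum_le_sum fun r _ => ?_
      rw [abs_mul, abs_pow, abs_neg, abs_of_nonneg hd0]
      have h1 : |∑ t : Fin T, x ^ (t : ℕ) * ((t : ℕ).choose r : ℝ) *
            (((((dt ((t : ℕ) : ℤ))^[j] (poly p t)).eval a : ℤ) : ℝ) *
              Real.exp ((t : ℕ) * a))| = ‖iteratedDeriv j (HH (cc x (r : ℕ)) (poly p)) ((a : ℝ) : ℂ)‖ := by
        rw [iteratedDeriv_HH, ← Real.norm_eq_abs, ← Complex.norm_real]
        congr 1
        unfold HH cc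
        push_cast
        refine sum_congr rfl fun t _ => ?_
        have h2 := aeval_intCast ((dt ((t : ℕ) : ℤ))^[j] (poly p t)) a
        push_cast at h2
        rw [h2]
      rw [h1]
      have h2 := deriv_bound (differentiable_HH (cc x (r : ℕ)) (poly p)) (a := ((a : ℝ) : ℂ))
        (C := ∑ ν : Fin (n r), 2 * B / Nb ⟨r, ν⟩ * θ ^ (ν : ℕ) + 2 * B * θ ^ (n r)) (by
          intro z hz
          refine hH r z (hz.trans ?_)
          rw [Complex.norm_real, Real.norm_of_nonneg ha0']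
          linarith) j
      have h3 : d a ^ (r : ℕ) ≤ ε ^ (r : ℕ) := pow_le_pow_left₀ hd0 hdε _
      calc d a ^ (r : ℕ) * ‖iteratedDeriv j (HH (cc x (r : ℕ)) (poly p)) ((a : ℝ) : ℂ)‖
          ≤ ε ^ (r : ℕ) * ((j.factorial : ℝ) * (∑ ν : Fin (n r), 2 * B / Nb ⟨r, ν⟩ * θ ^ (ν : ℕ) +
            2 * B * θ ^ (n r))) := by
            refine mul_le_mul h3 h2 (norm_nonneg _) (by positivity)
        _ = _ := by ring
    have h4 : |(∑ t : Fin T, u a ^ (t : ℕ) *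
        ((dt ((t : ℕ) : ℤ))^[j] (poly p t)).eval a : ℤ)| < 1 := by exact_mod_cast hlt
    rw [Int.abs_lt_one_iff] at h4
    exact h4
  have h5 := zero_est (fun t => poly p t) (poly_ne p hp0) (fun t => Nn t - 1)
    (fun t => poly_natDegree p t) I u hu n' hF
  omega

end Pool.Agent.LibHT14
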