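import Mathlib
import Pool.Agent.LibHT14.Main

/-!
Combinatorics of the parameters.
-/

namespace Pool.Agent.LibHT14

open Finset

theorem sum_range_succ_id (n : ℕ) : 2 * ∑ j ∈ range n, (j + 1) = n * (n + 1) := by
  induction n with
  | zero => rfl
  | succ n ih => rw [sum_range_succ, mul_add, ih]; ring

theorem sum_range_sq (n : ℕ) : 6 * ∑ j ∈ range n, (j + 1) ^ 2 = n * (n + 1) * (2 * n + 1) := by
  induction n with
  | zero => rfl
  | succ n ih => rw [sum_range_succ, mul_add, ih]; ring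

theorem sum_range_odd (n : ℕ) :
    3 * ∑ j ∈ range (n + 1), (2 * j + 1) ^ 2 = (n + 1) * (2 * n + 1) * (2 * n + 3) := by
  induction n with
  | zero => rfl
  | succ n ih => rw [sum_range_succ, mul_add, ih]; ring

theorem sum_sub (n : ℕ) : 2 * ∑ s : Fin n, (n - (s : ℕ)) = n * (n + 1) := by
  rw [Fin.sum_univ_eq_sum_range (fun s => n - s) n, ← sum_range_succ_id n,
    ← sum_range_reflect (fun j => j + 1) n]
  congr 1
  refine sum_congr rfl fun j hj => ?_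
  rw [mem_range] at hj
  omega

theorem sum_sub_sq (n : ℕ) : 6 * ∑ s : Fin n, (n - (s : ℕ)) ^ 2 = n * (n + 1) * (2 * n + 1) := by
  rw [Fin.sum_univ_eq_sum_range (fun s => (n - s) ^ 2) n, ← sum_range_sq n,
    ← sum_range_reflect (fun j => (j + 1) ^ 2) n]
  congr 1
  refine sum_congr rfl fun j hj => ?_
  rw [mem_range] at hj
  congr 1
  omega

theorem sum_odd (l : ℕ) (hl : 1 ≤ l) :
    3 * ∑ r : Fin (2 * l), (2 * l + 1 - 2 * (r : ℕ)) ^ 2 = (l + 1) * (2 * l + 1) * (2 * l + 3) := by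
  rw [Fin.sum_univ_eq_sum_range (fun r => (2 * l + 1 - 2 * r) ^ 2) (2 * l), ← sum_range_odd l,
    ← sum_range_reflect (fun j => (2 * j + 1) ^ 2) (l + 1)]
  congr 1
  symm
  have h1 : ∀ r ∈ range (l + 1), (2 * (l + 1 - 1 - r) + 1) ^ 2 = (2 * l + 1 - 2 * r) ^ 2 := by
    intro r hr
    rw [mem_range] at hr
    congr 1
    omega
  rw [sum_congr rfl h1]
  refine sum_subset (fun r hr => ?_) fun r _ hr => ?_
  · rw [mem_range] at hr ⊢
    omega
  · rw [mem_range, not_lt] at hr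
    rw [show 2 * l + 1 - 2 * r = 0 by omega]
    rfl

/-- number of coefficients of the polynomial `A_t` -/
def Nn (l m : ℕ) (t : Fin (2 * l)) : ℕ := (2 * l - (t : ℕ)) * m

/-- size of the coefficients -/
def PP (l m k : ℕ) (g : Σ t : Fin (2 * l), Fin (Nn l m t)) : ℕ := k ^ (Nn l m g.1 - (g.2 : ℕ))

def YY (l m : ℕ) (r : Fin (2 * l)) : ℕ := (2 * l + 1 - 2 * (r : ℕ)) * m

noncomputable def nr (l m : ℕ) (q : ℝ) (r : Fin (2 * l)) : ℕ := ⌈(YY l m r : ℝ) / q⌉₊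

noncomputable def Nb (l m k : ℕ) (q : ℝ) (g : Σ r : Fin (2 * l), Fin (nr l m q r)) : ℕ :=
  ⌈(k : ℝ) ^ ((YY l m g.1 : ℝ) - q * (g.2 : ℕ))⌉₊

theorem prod_PP (l m k : ℕ) : ∃ E : ℕ,
    m ^ 2 * (2 * l * (2 * l + 1) * (4 * l + 1)) ≤ 12 * E ∧ k ^ E ≤ ∏ g, (PP l m k g + 1) := by
  refine ⟨∑ g : (Σ t : Fin (2 * l), Fin (Nn l m t)), (Nn l m g.1 - (g.2 : ℕ)), ?_, ?_⟩
  · rw [Fintype.sum_sigma]
    have h1 : 12 * ∑ t : Fin (2 * l), ∑ s : Fin (Nn l m t), (Nn l m t - (s : ℕ)) =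
        6 * ∑ t : Fin (2 * l), (Nn l m t * (Nn l m t + 1)) := by
      rw [show (12 : ℕ) = 6 * 2 by norm_num, mul_assoc, mul_sum (a := 2)]
      congr 1
      exact sum_congr rfl fun t _ => sum_sub _
    simp only at h1 ⊢
    rw [h1]
    have h2 : m ^ 2 * (2 * l * (2 * l + 1) * (4 * l + 1)) =
        6 * ∑ t : Fin (2 * l), (m ^ 2 * (2 * l - (t : ℕ)) ^ 2) := by
      have h3 := sum_sub_sq (2 * l)
      rw [← mul_sum]
      calc m ^ 2 * (2 * l * (2 * l + 1) * (4 * l + 1)) =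
          m ^ 2 * (2 * l * (2 * l + 1) * (2 * (2 * l) + 1)) := by ring
        _ = m ^ 2 * (6 * ∑ s : Fin (2 * l), (2 * l - (s : ℕ)) ^ 2) := by rw [h3]
        _ = _ := by ring
    rw [h2]
    refine Nat.mul_le_mul_left _ (sum_le_sum fun t _ => ?_)
    unfold Nn
    nlinarith [Nat.zero_le ((2 * l - (t : ℕ)) * m)]
  · rw [← prod_pow_eq_pow_sum]
    refine prod_le_prod' fun g _ => ?_
    unfold PP
    omega

theorem lt_nr {l m : ℕ} {q : ℝ} (hq : 0 < q) {r : Fin (2 * l)} (ν : Fin (nr l m q r)) :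
    0 ≤ (YY l m r : ℝ) - q * (ν : ℕ) := by
  have h1 := ν.2
  unfold nr at h1
  rw [Nat.lt_ceil, lt_div_iff₀ hq] at h1
  linarith

theorem sum_fin_real (n : ℕ) (Y q : ℝ) :
    ∑ ν : Fin n, (Y - q * (ν : ℕ) + 1) = n * Y - q * (n * (n - 1)) / 2 + n := by
  rw [Fin.sum_univ_eq_sum_range (fun ν => Y - q * (ν : ℕ) + 1) n]
  induction n with
  | zero => simp
  | succ n ih =>
    rw [sum_range_succ, ih]
    push_cast
    ring

theorem nr_le {l m : ℕ} {q : ℝ} (hq : 1 / 2 ≤ q) (r : Fin (2 * l)) :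
    (nr l m q r : ℝ) ≤ 2 * (2 * l + 1) * m + 1 := by
  have hq0 : 0 < q := by linarith
  unfold nr
  have h1 := Nat.ceil_lt_add_one (a := (YY l m r : ℝ) / q) (by positivity)
  have h2 : (YY l m r : ℝ) / q ≤ 2 * (2 * l + 1) * m := by
    rw [div_le_iff₀ hq0]
    have h3 : (YY l m r : ℝ) ≤ (2 * l + 1) * m := by
      have h4 : YY l m r ≤ (2 * l + 1) * m := Nat.mul_le_mul_right _ (Nat.sub_le _ _)
      exact_mod_cast h4
    have h5 : (0 : ℝ) ≤ (2 * l + 1) * m := by positivity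
    nlinarith
  linarith

theorem prod_Nb (l m k : ℕ) (hl : 1 ≤ l) (hk : 3 ≤ k) {q : ℝ} (hq : 1 / 2 ≤ q) (hq1 : q ≤ 1) :
    ((∏ g, (Nb l m k q g + 1) : ℕ) : ℝ) ≤ (k : ℝ) ^ ((m : ℝ) ^ 2 * ((l + 1) * (2 * l + 1) *
      (2 * l + 3)) / (6 * q) + 4 * l * (2 * (2 * l + 1) * m + 1)) := by
  have hq0 : 0 < q := by linarith
  have hk0 : (0 : ℝ) < k := by exact_mod_cast (by omega : 0 < k)
  have hk1 : (1 : ℝ) ≤ k := by exact_mod_cast (by omega : 1 ≤ k)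
  have hk3 : (3 : ℝ) ≤ k := by exact_mod_cast hk
  push_cast
  have h1 : ∀ g : (Σ r : Fin (2 * l), Fin (nr l m q r)), ((Nb l m k q g : ℝ) + 1) ≤
      (k : ℝ) ^ ((YY l m g.1 : ℝ) - q * (g.2 : ℕ) + 1) := by
    intro g
    have h2 := lt_nr hq0 g.2
    have h3 : (1 : ℝ) ≤ (k : ℝ) ^ ((YY l m g.1 : ℝ) - q * (g.2 : ℕ)) :=
      Real.one_le_rpow hk1 h2
    have h4 := Nat.ceil_lt_add_one (a := (k : ℝ) ^ ((YY l m g.1 : ℝ) - q * (g.2 : ℕ)))
      (by positivity)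
    rw [Real.rpow_add_one hk0.ne']
    unfold Nb
    nlinarith
  refine (prod_le_prod (fun g _ => by positivity) fun g _ => h1 g).trans ?_
  rw [← Real.rpow_sum_of_pos hk0]
  refine Real.rpow_le_rpow_of_exponent_le hk1 ?_
  rw [Fintype.sum_sigma]
  have h5 : ∀ r : Fin (2 * l), ∑ ν : Fin (nr l m q r), ((YY l m r : ℝ) - q * (ν : ℕ) + 1) ≤
      (YY l m r : ℝ) ^ 2 / (2 * q) + 2 * (2 * (2 * l + 1) * m + 1) := by
    intro r
    rw [sum_fin_real]
    have h6 := nr_le (m := m) hq r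
    have h7 : (0 : ℝ) ≤ nr l m q r := Nat.cast_nonneg _
    have h8 : (nr l m q r : ℝ) * (YY l m r) - q * (nr l m q r) ^ 2 / 2 ≤
        (YY l m r : ℝ) ^ 2 / (2 * q) := by
      rw [le_div_iff₀ (by positivity)]
      nlinarith [sq_nonneg (q * (nr l m q r : ℝ) - YY l m r)]
    nlinarith
  refine (sum_le_sum fun r _ => h5 r).trans ?_
  rw [sum_add_distrib, ← sum_div, sum_const, card_univ, Fintype.card_fin, nsmul_eq_mul]
  have h9 : ∑ r : Fin (2 * l), (YY l m r : ℝ) ^ 2 =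
      (m : ℝ) ^ 2 * ((l + 1) * (2 * l + 1) * (2 * l + 3)) / 3 := by
    have h10 := sum_odd l hl
    have h11 : ∑ r : Fin (2 * l), YY l m r ^ 2 =
        m ^ 2 * ∑ r : Fin (2 * l), (2 * l + 1 - 2 * (r : ℕ)) ^ 2 := by
      rw [mul_sum]
      refine sum_congr rfl fun r _ => ?_
      unfold YY
      ring
    have h12 : 3 * ∑ r : Fin (2 * l), YY l m r ^ 2 =
        m ^ 2 * ((l + 1) * (2 * l + 1) * (2 * l + 3)) := by
      rw [h11, mul_left_comm, h10]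
    have h13 : (3 : ℝ) * ∑ r : Fin (2 * l), (YY l m r : ℝ) ^ 2 =
        (m : ℝ) ^ 2 * ((l + 1) * (2 * l + 1) * (2 * l + 3)) := by exact_mod_cast h12
    linarith
  rw [h9]
  push_cast
  refine le_of_eq ?_
  field_simp
  ring

/-- the counting condition -/
theorem hcard_ok (l m k : ℕ) (hl : 1 ≤ l) (hk : 3 ≤ k) {q δ : ℝ} (hδ : 0 < δ)
    (hq : q = 1 / 2 + δ) (hq1 : q ≤ 1) (hlδ : 2 ≤ δ * l) (hm : 144 * l < m) :
    ∏ g, (Nb l m k q g + 1) < ∏ g, (PP l m k g + 1) := by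
  have hq0 : 0 < q := by linarith
  have hk1 : (1 : ℝ) < k := by exact_mod_cast (by omega : 1 < k)
  obtain ⟨E, hE, hE2⟩ := prod_PP l m k
  have h1 := prod_Nb l m k hl hk (q := q) (by linarith) hq1
  have h2 : ((m : ℝ) ^ 2 * ((l + 1) * (2 * l + 1) *
      (2 * l + 3)) / (6 * q) + 4 * l * (2 * (2 * l + 1) * m + 1)) < E := by
    have hlR : (1 : ℝ) ≤ l := by exact_mod_cast hl
    have hmR : (144 : ℝ) * l < m := by exact_mod_cast hm
    have hER : (m : ℝ) ^ 2 * (2 * l * (2 * l + 1) * (4 * l + 1)) ≤ 12 * E := by exact_mod_cast hE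
    have h3 : (l + 1 : ℝ) * (2 * l + 3) + 1 / 2 ≤ q * (l * (4 * l + 1)) := by
      rw [hq]
      nlinarith
    have h4 : (m : ℝ) ^ 2 * ((l + 1) * (2 * l + 1) * (2 * l + 3)) / (6 * q) ≤
        (m : ℝ) ^ 2 * (2 * l + 1) * (l * (4 * l + 1) - 1 / 2) / 6 := by
      rw [div_le_div_iff₀ (by positivity) (by norm_num)]
      have h5 : (l + 1 : ℝ) * (2 * l + 3) ≤ q * (l * (4 * l + 1) - 1 / 2) := by nlinarith
      have h6 : (0 : ℝ) ≤ (m : ℝ) ^ 2 * (2 * l + 1) * 6 := by positivity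
      have h7 := mul_le_mul_of_nonneg_left h5 h6
      nlinarith
    have h8 : (4 : ℝ) * l * (2 * (2 * l + 1) * m + 1) < (m : ℝ) ^ 2 * (2 * l + 1) / 12 := by
      have h9 : (1 : ℝ) ≤ (2 * l + 1) * m := by nlinarith
      have h10 : (4 : ℝ) * l * (2 * (2 * l + 1) * m + 1) ≤ 12 * l * ((2 * l + 1) * m) := by
        nlinarith
      have h11 : (0 : ℝ) < (2 * l + 1) * m := by linarith
      have h12 : (12 : ℝ) * l * ((2 * l + 1) * m) < m / 12 * ((2 * l + 1) * m) :=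
        mul_lt_mul_of_pos_right (by linarith) h11
      nlinarith
    nlinarith
  have h3 : ((∏ g, (Nb l m k q g + 1) : ℕ) : ℝ) < ((∏ g, (PP l m k g + 1) : ℕ) : ℝ) := by
    refine h1.trans_lt (lt_of_lt_of_le (Real.rpow_lt_rpow_of_exponent_lt hk1 h2) ?_)
    rw [Real.rpow_natCast]
    exact_mod_cast hE2
  exact_mod_cast h3

/-- the condition of the zero estimate -/
theorem hzero_ok (l m : ℕ) (hl : 1 ≤ l) :
    ∑ t : Fin (2 * l), (Nn l m t - 1) <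
      (4 * l * (2 * l + 1)) * (m / 4 + 1 + 2 * l + 1 - 2 * l) := by
  have h1 : ∑ t : Fin (2 * l), (Nn l m t - 1) ≤ ∑ t : Fin (2 * l), Nn l m t :=
    sum_le_sum fun t _ => Nat.sub_le _ _
  have h2 : 2 * ∑ t : Fin (2 * l), Nn l m t = 2 * l * (2 * l + 1) * m := by
    unfold Nn
    rw [← sum_mul, ← mul_assoc, sum_sub]
  have h3 : m / 4 + 1 + 2 * l + 1 - 2 * l = m / 4 + 2 := by omega
  rw [h3]
  have h4 : m < 4 * (m / 4 + 2) := by omega
  have h5 : 0 < l * (2 * l + 1) := by positivity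
  have h6 := Nat.mul_lt_mul_of_pos_left h4 h5
  have h7 : 4 * l * (2 * l + 1) * (m / 4 + 2) = l * (2 * l + 1) * (4 * (m / 4 + 2)) := by ring
  rw [h7]
  have h8 : ∑ t : Fin (2 * l), Nn l m t = l * (2 * l + 1) * m := by
    have : 2 * (l * (2 * l + 1) * m) = 2 * l * (2 * l + 1) * m := by ring
    omega
  omega

end Pool.Agent.LibHT14
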