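import Mathlib
import Pool.Agent.LibHT14.Params
import Pool.Agent.LibHarmonic.Window

/-!
Few exceptional integers in a window `[k, k + k ^ η]`, `η < 1/2`, `k` large.
-/

namespace Pool.Agent.LibHT14

open Finset Filter Pool.Agent.LibHarmonic

theorem ev_conds (l : ℕ) (hl : 1 ≤ l) {g : ℝ} (hg0 : 0 < g) (C : ℝ) :
    ∀ᶠ k : ℕ in atTop, (4 * l + 4 ≤ k ∧ (2 : ℝ) ≤ (k : ℝ) ^ (g / 3)) ∧
      (k : ℝ) ^ (144 * l + 1) < Real.exp k ∧
      (2 * l : ℝ) * (k : ℝ) ^ (1 - g / 3) ≤ k / 4 ∧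
      C * (k : ℝ) ^ (4 * l + 3) < Real.exp (k / 2) := by
  have hlR : (1 : ℝ) ≤ l := by exact_mod_cast hl
  have h1 : ∀ᶠ k : ℕ in atTop, (2 : ℝ) ≤ (k : ℝ) ^ (g / 3) :=
    (tendsto_natCast_atTop_atTop (R := ℝ)).eventually
      ((tendsto_rpow_atTop (by positivity : 0 < g / 3)).eventually_ge_atTop 2)
  have h2 : ∀ᶠ k : ℕ in atTop, (k : ℝ) ^ (144 * l + 1) < Real.exp k := by
    have h3 := (tendsto_natCast_atTop_atTop (R := ℝ)).eventually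
      ((Real.tendsto_exp_div_pow_atTop (144 * l + 1)).eventually_gt_atTop 1)
    filter_upwards [h3, eventually_ge_atTop 1] with k hk hk1
    have hk0 : (0 : ℝ) < k := by exact_mod_cast hk1
    rwa [lt_div_iff₀ (by positivity), one_mul] at hk
  have h3 : ∀ᶠ k : ℕ in atTop, (2 * l : ℝ) * (k : ℝ) ^ (1 - g / 3) ≤ k / 4 := by
    have h4 := (tendsto_natCast_atTop_atTop (R := ℝ)).eventually
      (ev_rpow_le (r := 1 - g / 3) (c := 1 / (8 * l)) (by linarith) (by positivity))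
    filter_upwards [h4] with k hk
    calc (2 * l : ℝ) * (k : ℝ) ^ (1 - g / 3) ≤ 2 * l * (1 / (8 * l) * k) := by gcongr
      _ = k / 4 := by field_simp; ring
  have h4 : ∀ᶠ k : ℕ in atTop, C * (k : ℝ) ^ (4 * l + 3) < Real.exp (k / 2) := by
    have h5 := (tendsto_natCast_atTop_atTop (R := ℝ)).eventually
      ((tendsto_exp_mul_div_rpow_atTop ((4 * l + 3 : ℕ) : ℝ) (1 / 2)
        (by norm_num)).eventually_gt_atTop C)
    filter_upwards [h5, eventually_ge_atTop 1] with k hk hk1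
    have hk0 : (0 : ℝ) < k := by exact_mod_cast hk1
    rw [Real.rpow_natCast, lt_div_iff₀ (by positivity)] at hk
    rwa [show (k : ℝ) / 2 = 1 / 2 * k by ring]
  filter_upwards [h1, h2, h3, h4, eventually_ge_atTop (4 * l + 4)] with k a1 a2 a3 a4 a5
  exact ⟨⟨a5, a1⟩, a2, a3, a4⟩

theorem exists_m (k : ℕ) (hk : 4 ≤ k) : ∃ m : ℕ, (k : ℝ) ^ m ≤ Real.exp k ∧
    Real.exp k < (k : ℝ) ^ (m + 1) ∧ m ≤ k := by
  have hfl : ⌊Real.exp k⌋₊ ≠ 0 := by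
    have h1 : 1 ≤ ⌊Real.exp k⌋₊ := by
      rw [Nat.one_le_floor_iff]
      exact Real.one_le_exp (Nat.cast_nonneg k)
    omega
  have h1 : (k : ℝ) ^ (Nat.log k ⌊Real.exp k⌋₊) ≤ Real.exp k := by
    have h2 := Nat.pow_log_le_self k hfl
    have h3 : ((k ^ (Nat.log k ⌊Real.exp k⌋₊) : ℕ) : ℝ) ≤ (⌊Real.exp k⌋₊ : ℝ) := by
      exact_mod_cast h2
    push_cast at h3
    exact h3.trans (Nat.floor_le (Real.exp_pos _).le)
  refine ⟨Nat.log k ⌊Real.exp k⌋₊, h1, ?_, ?_⟩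
  · have h2 := Nat.lt_pow_succ_log_self (b := k) (by omega) ⌊Real.exp k⌋₊
    have h3 : ((⌊Real.exp k⌋₊ + 1 : ℕ) : ℝ) ≤
        ((k ^ (Nat.log k ⌊Real.exp k⌋₊ + 1) : ℕ) : ℝ) := by exact_mod_cast h2
    push_cast at h3
    exact (Nat.lt_floor_add_one _).trans_le h3
  · have h2 : Real.exp ((Nat.log k ⌊Real.exp k⌋₊ : ℕ) : ℝ) ≤ Real.exp k := by
      refine le_trans ?_ h1
      rw [← Real.exp_one_pow]
      refine pow_le_pow_left₀ (Real.exp_pos _).le ?_ _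
      have h3 := Real.exp_one_lt_d9
      have h4 : (4 : ℝ) ≤ k := by exact_mod_cast hk
      linarith
    have h3 := Real.exp_le_exp.1 h2
    exact_mod_cast h3

theorem x_bounds (k : ℕ) : Real.exp k ≤ 2 * Real.exp ((k : ℝ) - Real.eulerMascheroniConstant) ∧
    2 * Real.exp ((k : ℝ) - Real.eulerMascheroniConstant) ≤ 2 * Real.exp k := by
  constructor
  · have h1 : Real.exp Real.eulerMascheroniConstant ≤ 2 := by
      have h2 := Real.eulerMascheroniConstant_lt_two_thirds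
      have h3 := Real.log_two_gt_d9
      rw [← Real.exp_log (by norm_num : (0 : ℝ) < 2)]
      exact Real.exp_le_exp.2 (by linarith)
    calc Real.exp k = Real.exp Real.eulerMascheroniConstant *
          Real.exp ((k : ℝ) - Real.eulerMascheroniConstant) := by
          rw [← Real.exp_add]
          congr 1
          ring
      _ ≤ _ := mul_le_mul_of_nonneg_right h1 (Real.exp_pos _).le
  · have h2 := Real.one_half_lt_eulerMascheroniConstant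
    have h3 := Real.exp_le_exp.2 (by linarith : (k : ℝ) - Real.eulerMascheroniConstant ≤ k)
    linarith

/-- the data of an exceptional integer -/
theorem exists_ud {k m a : ℕ} (hk : 1 ≤ k) (hm : (k : ℝ) ^ m ≤ Real.exp k)
    (h : Exceptional (k + a)) : ∃ ud : ℤ × ℝ, ud.1 ≠ 0 ∧ 0 ≤ ud.2 ∧
      ud.2 ≤ 4 / ((k : ℝ) ^ m) ^ 2 ∧
      (ud.1 : ℝ) = 2 * Real.exp ((k : ℝ) - Real.eulerMascheroniConstant) *
        Real.exp ((a : ℤ) : ℝ) * (1 - ud.2) := by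
  obtain ⟨q, h1, h2, h3⟩ := h.exists_int (by omega)
  have hk0 : (0 : ℝ) < k := by exact_mod_cast hk
  have hX : 2 * Real.exp (((k + a : ℕ) : ℝ) - Real.eulerMascheroniConstant) =
      2 * Real.exp ((k : ℝ) - Real.eulerMascheroniConstant) * Real.exp ((a : ℤ) : ℝ) := by
    rw [mul_assoc, ← Real.exp_add]
    congr 2
    push_cast
    ring
  rw [hX] at h2 h3
  obtain ⟨X, hXd⟩ : ∃ X, X = 2 * Real.exp ((k : ℝ) - Real.eulerMascheroniConstant) *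
    Real.exp ((a : ℤ) : ℝ) := ⟨_, rfl⟩
  rw [← hXd] at h2 h3 ⊢
  have hX0 : 0 < X := by rw [hXd]; positivity
  have hXk : (k : ℝ) ^ m ≤ X := by
    refine hm.trans ((x_bounds k).1.trans ?_)
    rw [hXd]
    have h4 : (1 : ℝ) ≤ Real.exp ((a : ℤ) : ℝ) := Real.one_le_exp (by positivity)
    have h5 : (0 : ℝ) ≤ 2 * Real.exp ((k : ℝ) - Real.eulerMascheroniConstant) := by positivity
    nlinarith
  refine ⟨(q, (X - q) / X), by simpa using h1.ne', ?_, ?_, ?_⟩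
  · exact div_nonneg (by simpa using h2) hX0.le
  · simp only
    have h4 : (X - q) / X ≤ 4 / X ^ 2 := by
      rw [div_le_iff₀ hX0]
      have h5 : 4 / X ^ 2 * X = 4 / X := by
        field_simp
      rw [h5]
      linarith
    refine h4.trans ?_
    have h6 : (0 : ℝ) < (k : ℝ) ^ m := by positivity
    gcongr
  · simp only
    field_simp
    ring

/-- the size bound -/
theorem hB_ok (l m k : ℕ) (hk : 1 ≤ k) {x ρ : ℝ} (hx0 : 0 ≤ x)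
    (hx : x ≤ 2 * (k : ℝ) ^ (m + 1)) (hρ0 : 0 ≤ ρ) (hρ : ρ ≤ k) :
    ∑ g : (Σ t : Fin (2 * l), Fin (Nn l m t)), (PP l m k g : ℝ) * (x ^ (g.1 : ℕ) *
      2 ^ (2 * l) * (ρ ^ (g.2 : ℕ) * Real.exp ((2 * l : ℕ) * ρ))) ≤
      ((2 * l : ℕ) : ℝ) ^ 2 * m * (4 ^ (2 * l) * (k : ℝ) ^ (2 * l * m + 2 * l) *
        Real.exp ((2 * l : ℕ) * ρ)) := by
  have hk1 : (1 : ℝ) ≤ k := by exact_mod_cast hk
  have hk0 : (0 : ℝ) < k := by linarith
  have h1 : ∀ g ∈ (univ : Finset (Σ t : Fin (2 * l), Fin (Nn l m t))),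
      (PP l m k g : ℝ) * (x ^ (g.1 : ℕ) *
      2 ^ (2 * l) * (ρ ^ (g.2 : ℕ) * Real.exp ((2 * l : ℕ) * ρ))) ≤
      (4 ^ (2 * l) * (k : ℝ) ^ (2 * l * m + 2 * l) * Real.exp ((2 * l : ℕ) * ρ)) := by
    intro g _
    have hg1 := g.1.2
    have hg2 := g.2.2
    have h2 : (PP l m k g : ℝ) = (k : ℝ) ^ (Nn l m g.1 - (g.2 : ℕ)) := by
      unfold PP
      push_cast
      rfl
    have h3 : x ^ (g.1 : ℕ) ≤ 2 ^ (2 * l) * (k : ℝ) ^ ((m + 1) * (g.1 : ℕ)) := by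
      refine (pow_le_pow_left₀ hx0 hx _).trans ?_
      rw [mul_pow, ← pow_mul]
      have h4 : (2 : ℝ) ^ (g.1 : ℕ) ≤ 2 ^ (2 * l) := pow_le_pow_right₀ (by norm_num) hg1.le
      exact mul_le_mul_of_nonneg_right h4 (by positivity)
    have h4 : ρ ^ (g.2 : ℕ) ≤ (k : ℝ) ^ (g.2 : ℕ) := pow_le_pow_left₀ hρ0 hρ _
    have h5 : (k : ℝ) ^ (Nn l m g.1 - (g.2 : ℕ)) * (k : ℝ) ^ ((m + 1) * (g.1 : ℕ)) *
        (k : ℝ) ^ (g.2 : ℕ) ≤ (k : ℝ) ^ (2 * l * m + 2 * l) := by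
      rw [← pow_add, ← pow_add]
      refine pow_le_pow_right₀ hk1 ?_
      have h6 : Nn l m g.1 + (g.1 : ℕ) * m = 2 * l * m := by
        unfold Nn
        rw [← add_mul]
        congr 1
        omega
      have h7 : (m + 1) * (g.1 : ℕ) = (g.1 : ℕ) * m + (g.1 : ℕ) := by ring
      omega
    have hE : 0 < Real.exp ((2 * l : ℕ) * ρ) := Real.exp_pos _
    rw [h2]
    calc (k : ℝ) ^ (Nn l m g.1 - (g.2 : ℕ)) * (x ^ (g.1 : ℕ) *
        2 ^ (2 * l) * (ρ ^ (g.2 : ℕ) * Real.exp ((2 * l : ℕ) * ρ)))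
        ≤ (k : ℝ) ^ (Nn l m g.1 - (g.2 : ℕ)) * ((2 ^ (2 * l) * (k : ℝ) ^ ((m + 1) * (g.1 : ℕ))) *
        2 ^ (2 * l) * ((k : ℝ) ^ (g.2 : ℕ) * Real.exp ((2 * l : ℕ) * ρ))) := by gcongr
      _ = 4 ^ (2 * l) * ((k : ℝ) ^ (Nn l m g.1 - (g.2 : ℕ)) * (k : ℝ) ^ ((m + 1) * (g.1 : ℕ)) *
        (k : ℝ) ^ (g.2 : ℕ)) * Real.exp ((2 * l : ℕ) * ρ) := by
          have h8 : (4 : ℝ) ^ (2 * l) = 2 ^ (2 * l) * 2 ^ (2 * l) := by
            rw [← mul_pow]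
            norm_num
          rw [h8]
          ring
      _ ≤ _ := by gcongr
  refine (sum_le_card_nsmul _ _ _ h1).trans ?_
  rw [card_univ, Fintype.card_sigma, nsmul_eq_mul]
  refine mul_le_mul_of_nonneg_right ?_ (by positivity)
  have h2 : ∑ t : Fin (2 * l), Fintype.card (Fin (Nn l m t)) ≤ (2 * l) ^ 2 * m := by
    have h3 : ∀ t ∈ (univ : Finset (Fin (2 * l))), Fintype.card (Fin (Nn l m t)) ≤ 2 * l * m := by
      intro t _
      rw [Fintype.card_fin]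
      exact Nat.mul_le_mul_right _ (Nat.sub_le _ _)
    refine (sum_le_card_nsmul _ _ _ h3).trans ?_
    rw [card_univ, Fintype.card_fin, smul_eq_mul]
    exact le_of_eq (by ring)
  exact_mod_cast h2

/-- the smallness condition for one `r` -/
theorem small_r (l m k : ℕ) (hk : 1 ≤ k) {q B : ℝ} (hq : 1 / 2 ≤ q)
    (hB : 0 < B) (r : Fin (2 * l)) :
    (4 / ((k : ℝ) ^ m) ^ 2) ^ (r : ℕ) * (∑ ν : Fin (nr l m q r),
      2 * B / Nb l m k q ⟨r, ν⟩ * ((k : ℝ) ^ (-q)) ^ (ν : ℕ) +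
      2 * B * ((k : ℝ) ^ (-q)) ^ (nr l m q r)) ≤
      (2 * B * 4 ^ (2 * l) / (k : ℝ) ^ ((2 * l + 1) * m)) * (2 * (2 * l + 1) * m + 2) := by
  have hq0 : 0 < q := by linarith
  have hk1 : (1 : ℝ) ≤ k := by exact_mod_cast hk
  have hk0 : (0 : ℝ) < k := by linarith
  have hθ : ∀ ν : ℕ, ((k : ℝ) ^ (-q)) ^ ν = (k : ℝ) ^ (-(q * ν)) := by
    intro ν
    rw [← Real.rpow_natCast, ← Real.rpow_mul hk0.le]
    congr 1
    ring
  have h1 : ∀ ν : Fin (nr l m q r), 2 * B / Nb l m k q ⟨r, ν⟩ * ((k : ℝ) ^ (-q)) ^ (ν : ℕ) ≤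
      2 * B / (k : ℝ) ^ (YY l m r) := by
    intro ν
    have h2 : (k : ℝ) ^ ((YY l m r : ℝ) - q * (ν : ℕ)) ≤ Nb l m k q ⟨r, ν⟩ := Nat.le_ceil _
    have h3 : (0 : ℝ) < (k : ℝ) ^ ((YY l m r : ℝ) - q * (ν : ℕ)) := by positivity
    calc 2 * B / Nb l m k q ⟨r, ν⟩ * ((k : ℝ) ^ (-q)) ^ (ν : ℕ)
        ≤ 2 * B / (k : ℝ) ^ ((YY l m r : ℝ) - q * (ν : ℕ)) * ((k : ℝ) ^ (-q)) ^ (ν : ℕ) := by
          gcongr
      _ = 2 * B / (k : ℝ) ^ (YY l m r) := by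
          rw [hθ, Real.rpow_neg hk0.le, Real.rpow_sub hk0, Real.rpow_natCast]
          have h4 : (0 : ℝ) < (k : ℝ) ^ (q * (ν : ℕ)) := by positivity
          field_simp
  have h2 : 2 * B * ((k : ℝ) ^ (-q)) ^ (nr l m q r) ≤ 2 * B / (k : ℝ) ^ (YY l m r) := by
    rw [hθ, Real.rpow_neg hk0.le, div_eq_mul_inv]
    have h3 : (k : ℝ) ^ (YY l m r) ≤ (k : ℝ) ^ (q * (nr l m q r : ℕ)) := by
      rw [← Real.rpow_natCast]
      refine Real.rpow_le_rpow_of_exponent_le hk1 ?_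
      have h4 := Nat.le_ceil ((YY l m r : ℝ) / q)
      rw [div_le_iff₀ hq0] at h4
      unfold nr
      linarith
    gcongr
  have h3 : ∑ ν : Fin (nr l m q r),
      2 * B / Nb l m k q ⟨r, ν⟩ * ((k : ℝ) ^ (-q)) ^ (ν : ℕ) +
      2 * B * ((k : ℝ) ^ (-q)) ^ (nr l m q r) ≤
      2 * B / (k : ℝ) ^ (YY l m r) * (2 * (2 * l + 1) * m + 2) := by
    have h4 := sum_le_card_nsmul univ _ _ (fun ν _ => h1 ν)
    rw [card_univ, Fintype.card_fin, nsmul_eq_mul] at h4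
    have h5 := nr_le (m := m) hq r
    have h6 : (0 : ℝ) < 2 * B / (k : ℝ) ^ (YY l m r) := by positivity
    nlinarith
  have h4 : (4 / ((k : ℝ) ^ m) ^ 2) ^ (r : ℕ) * (2 * B / (k : ℝ) ^ (YY l m r)) ≤
      2 * B * 4 ^ (2 * l) / (k : ℝ) ^ ((2 * l + 1) * m) := by
    have h5 : (4 / ((k : ℝ) ^ m) ^ 2) ^ (r : ℕ) = 4 ^ (r : ℕ) / (k : ℝ) ^ (2 * (r : ℕ) * m) := by
      rw [div_pow, ← pow_mul, ← pow_mul]
      congr 2
      ring
    rw [h5, div_mul_div_comm, ← pow_add]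
    have h6 : (4 : ℝ) ^ (r : ℕ) ≤ 4 ^ (2 * l) := pow_le_pow_right₀ (by norm_num) r.2.le
    have h7 : (k : ℝ) ^ ((2 * l + 1) * m) ≤ (k : ℝ) ^ (2 * (r : ℕ) * m + YY l m r) := by
      refine pow_le_pow_right₀ hk1 ?_
      unfold YY
      rw [← add_mul]
      refine Nat.mul_le_mul_right _ ?_
      omega
    calc 4 ^ (r : ℕ) * (2 * B) / (k : ℝ) ^ (2 * (r : ℕ) * m + YY l m r)
        ≤ 4 ^ (2 * l) * (2 * B) / (k : ℝ) ^ ((2 * l + 1) * m) := by gcongr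
      _ = _ := by ring
  calc _ ≤ (4 / ((k : ℝ) ^ m) ^ 2) ^ (r : ℕ) *
      (2 * B / (k : ℝ) ^ (YY l m r) * (2 * (2 * l + 1) * m + 2)) :=
        mul_le_mul_of_nonneg_left h3 (by positivity)
    _ = ((4 / ((k : ℝ) ^ m) ^ 2) ^ (r : ℕ) * (2 * B / (k : ℝ) ^ (YY l m r))) *
      (2 * (2 * l + 1) * m + 2) := by ring
    _ ≤ _ := mul_le_mul_of_nonneg_right h4 (by positivity)

theorem hsmall_ok (l m k : ℕ) (hl : 1 ≤ l) (hk : 4 * l + 4 ≤ k) {q B ρ : ℝ} (hq : 1 / 2 ≤ q)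
    (hm0 : 1 ≤ m) (hmk : m ≤ k) (hm1 : (k : ℝ) ^ m ≤ Real.exp k)
    (hm2 : Real.exp k < (k : ℝ) ^ (m + 1))
    (hρ : ((2 * l : ℕ) : ℝ) * ρ ≤ k / 4)
    (hB : B = ((2 * l : ℕ) : ℝ) ^ 2 * m * (4 ^ (2 * l) * (k : ℝ) ^ (2 * l * m + 2 * l) *
        Real.exp ((2 * l : ℕ) * ρ)))
    (hC : (((2 * l : ℕ) : ℝ) ^ 3 * (8 * (2 * l + 1)) * 16 ^ (2 * l)) * (k : ℝ) ^ (4 * l + 3) <
      Real.exp (k / 2)) :
    ∀ j < m / 4 + 1 + 2 * l, (j.factorial : ℝ) * ∑ r : Fin (2 * l),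
      (4 / ((k : ℝ) ^ m) ^ 2) ^ (r : ℕ) * (∑ ν : Fin (nr l m q r),
      2 * B / Nb l m k q ⟨r, ν⟩ * ((k : ℝ) ^ (-q)) ^ (ν : ℕ) +
      2 * B * ((k : ℝ) ^ (-q)) ^ (nr l m q r)) < 1 := by
  intro j hj
  have hk1 : (1 : ℝ) ≤ k := by exact_mod_cast (by omega : 1 ≤ k)
  have hk0 : (0 : ℝ) < k := by linarith
  have hlR : (1 : ℝ) ≤ l := by exact_mod_cast hl
  have hmR : (1 : ℝ) ≤ m := by exact_mod_cast hm0
  have hB0 : 0 < B := by rw [hB]; positivity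
  have h1 := sum_le_card_nsmul univ _ _
    (fun r _ => small_r l m k (by omega) hq hB0 r)
  rw [card_univ, Fintype.card_fin, nsmul_eq_mul] at h1
  -- the factorial
  have h2 : (j.factorial : ℝ) ≤ Real.exp (k / 4) * (k : ℝ) ^ (2 * l) := by
    have h3 : (j.factorial : ℝ) ≤ (j : ℝ) ^ j := by exact_mod_cast Nat.factorial_le_pow j
    have h4 : (j : ℝ) ≤ k := by
      exact_mod_cast (by omega : j ≤ k)
    have h5 : (j : ℝ) ^ j ≤ (k : ℝ) ^ j := pow_le_pow_left₀ (by positivity) h4 _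
    have h6 : (k : ℝ) ^ j ≤ (k : ℝ) ^ (m / 4 + 2 * l) := pow_le_pow_right₀ hk1 (by omega)
    have h7 : (k : ℝ) ^ (m / 4) ≤ Real.exp (k / 4) := by
      refine le_of_pow_le_pow_left₀ (n := 4) (by norm_num) (Real.exp_pos _).le ?_
      rw [← pow_mul, ← Real.exp_nat_mul]
      have h8 : (k : ℝ) ^ (m / 4 * 4) ≤ (k : ℝ) ^ m := pow_le_pow_right₀ hk1 (by omega)
      refine h8.trans (hm1.trans (le_of_eq ?_))
      congr 1
      push_cast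
      ring
    rw [pow_add] at h6
    exact h3.trans (h5.trans (h6.trans (mul_le_mul_of_nonneg_right h7 (by positivity))))
  have h3 : B / (k : ℝ) ^ ((2 * l + 1) * m) ≤ ((2 * l : ℕ) : ℝ) ^ 2 * k * (4 ^ (2 * l) *
      (k : ℝ) ^ (2 * l) * Real.exp (k / 4)) * (k * Real.exp (-k)) := by
    have h4 : (k : ℝ) ^ (2 * l * m + 2 * l) / (k : ℝ) ^ ((2 * l + 1) * m) ≤
        (k : ℝ) ^ (2 * l) * (k * Real.exp (-k)) := by
      rw [div_le_iff₀ (by positivity)]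
      have h5 : 1 ≤ (k * Real.exp (-k)) * (k : ℝ) ^ m := by
        have h6 : (k * Real.exp (-k)) * (k : ℝ) ^ m = (k : ℝ) ^ (m + 1) * Real.exp (-k) := by
          ring
        rw [h6]
        calc (1 : ℝ) = Real.exp k * Real.exp (-k) := by
              rw [← Real.exp_add]
              simp
          _ ≤ _ := mul_le_mul_of_nonneg_right hm2.le (Real.exp_pos _).le
      calc (k : ℝ) ^ (2 * l * m + 2 * l) = (k : ℝ) ^ (2 * l * m + 2 * l) * 1 := by ring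
        _ ≤ (k : ℝ) ^ (2 * l * m + 2 * l) * ((k * Real.exp (-k)) * (k : ℝ) ^ m) := by gcongr
        _ = _ := by ring
    have h5 : Real.exp ((2 * l : ℕ) * ρ) ≤ Real.exp (k / 4) := Real.exp_le_exp.2 hρ
    have h6 : (m : ℝ) ≤ k := by exact_mod_cast hmk
    rw [hB]
    calc ((2 * l : ℕ) : ℝ) ^ 2 * m * (4 ^ (2 * l) * (k : ℝ) ^ (2 * l * m + 2 * l) *
        Real.exp ((2 * l : ℕ) * ρ)) / (k : ℝ) ^ ((2 * l + 1) * m)
        = ((2 * l : ℕ) : ℝ) ^ 2 * m * (4 ^ (2 * l) *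
          ((k : ℝ) ^ (2 * l * m + 2 * l) / (k : ℝ) ^ ((2 * l + 1) * m)) *
          Real.exp ((2 * l : ℕ) * ρ)) := by ring
      _ ≤ ((2 * l : ℕ) : ℝ) ^ 2 * k * (4 ^ (2 * l) *
          ((k : ℝ) ^ (2 * l) * (k * Real.exp (-k))) * Real.exp (k / 4)) := by gcongr
      _ = _ := by ring
  have h4 : (2 * (2 * l + 1) * m + 2 : ℝ) ≤ 4 * (2 * l + 1) * k := by
    have h6 : (m : ℝ) ≤ k := by exact_mod_cast hmk
    nlinarith
  have hE : Real.exp (k / 4) * Real.exp (k / 4) * Real.exp (-k) * Real.exp (k / 2) = 1 := by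
    rw [← Real.exp_add, ← Real.exp_add, ← Real.exp_add]
    rw [show (k : ℝ) / 4 + k / 4 + -k + k / 2 = 0 by ring, Real.exp_zero]
  calc (j.factorial : ℝ) * ∑ r : Fin (2 * l),
      (4 / ((k : ℝ) ^ m) ^ 2) ^ (r : ℕ) * (∑ ν : Fin (nr l m q r),
      2 * B / Nb l m k q ⟨r, ν⟩ * ((k : ℝ) ^ (-q)) ^ (ν : ℕ) +
      2 * B * ((k : ℝ) ^ (-q)) ^ (nr l m q r))
      ≤ (j.factorial : ℝ) * ((2 * l : ℕ) * ((2 * B * 4 ^ (2 * l) /
        (k : ℝ) ^ ((2 * l + 1) * m)) * (2 * (2 * l + 1) * m + 2))) := by gcongr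
    _ = (j.factorial : ℝ) * (((2 * l : ℕ) : ℝ) * 2 * 4 ^ (2 * l) *
        (B / (k : ℝ) ^ ((2 * l + 1) * m)) * (2 * (2 * l + 1) * m + 2)) := by ring
    _ ≤ (Real.exp (k / 4) * (k : ℝ) ^ (2 * l)) * (((2 * l : ℕ) : ℝ) * 2 * 4 ^ (2 * l) *
        (((2 * l : ℕ) : ℝ) ^ 2 * k * (4 ^ (2 * l) *
      (k : ℝ) ^ (2 * l) * Real.exp (k / 4)) * (k * Real.exp (-k))) * (4 * (2 * l + 1) * k)) := by
        gcongr
    _ = ((((2 * l : ℕ) : ℝ) ^ 3 * (8 * (2 * l + 1)) * 16 ^ (2 * l)) * (k : ℝ) ^ (4 * l + 3)) *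
        (Real.exp (k / 4) * Real.exp (k / 4) * Real.exp (-k)) := by
        have h16 : (16 : ℝ) ^ (2 * l) = 4 ^ (2 * l) * 4 ^ (2 * l) := by
          rw [← mul_pow]
          norm_num
        rw [h16]
        ring
    _ < Real.exp (k / 2) * (Real.exp (k / 4) * Real.exp (k / 4) * Real.exp (-k)) :=
        mul_lt_mul_of_pos_right hC (by positivity)
    _ = 1 := by rw [← hE]; ring

end Pool.Agent.LibHT14
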