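import Mathlib
import Pool.Agent.LibHT14.Final

/-!
Few exceptional integers in a window `[k, k + k ^ η]`, `η < 1/2`, `k` large.
-/

namespace Pool.Agent.LibHT14

open Finset Filter Pool.Agent.LibHarmonic

theorem window_k (l k : ℕ) (hl : 1 ≤ l) {g : ℝ} (hg0 : 0 < g) (hg1 : g ≤ 1 / 2)
    (hlg : 2 ≤ g / 3 * l) (hk : 4 * l + 4 ≤ k) (hk2 : (2 : ℝ) ≤ (k : ℝ) ^ (g / 3))
    (h144 : (k : ℝ) ^ (144 * l + 1) < Real.exp k)
    (hρ4 : (2 * l : ℝ) * (k : ℝ) ^ (1 - g / 3) ≤ k / 4)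
    (hC : (((2 * l : ℕ) : ℝ) ^ 3 * (8 * (2 * l + 1)) * 16 ^ (2 * l)) * (k : ℝ) ^ (4 * l + 3) <
      Real.exp (k / 2)) (I : Finset ℕ) (hI : ∀ a ∈ I, (a : ℝ) ≤ (k : ℝ) ^ (1 / 2 - g))
    (hcard : I.card = 4 * l * (2 * l + 1)) (hex : ∀ a ∈ I, Exceptional (k + a)) : False := by
  have hk1 : (1 : ℝ) ≤ k := by exact_mod_cast (by omega : 1 ≤ k)
  have hk4 : (4 : ℝ) ≤ k := by exact_mod_cast (by omega : 4 ≤ k)
  have hk0 : (0 : ℝ) < k := by linarith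
  obtain ⟨m, hm1, hm2, hmk⟩ := exists_m k (by omega)
  have hm3 : 144 * l < m := by
    by_contra hm3
    have h1 : (k : ℝ) ^ (m + 1) ≤ (k : ℝ) ^ (144 * l + 1) := pow_le_pow_right₀ hk1 (by omega)
    linarith
  obtain ⟨x, hx⟩ : ∃ x, x = 2 * Real.exp ((k : ℝ) - Real.eulerMascheroniConstant) := ⟨_, rfl⟩
  have hx0 : 0 ≤ x := by rw [hx]; positivity
  have hx2 : x ≤ 2 * (k : ℝ) ^ (m + 1) := by
    rw [hx]
    refine (x_bounds k).2.trans ?_
    linarith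
  have hud : ∀ a ∈ I.map Nat.castEmbedding, ∃ ud : ℤ × ℝ, ud.1 ≠ 0 ∧ 0 ≤ ud.2 ∧
      ud.2 ≤ 4 / ((k : ℝ) ^ m) ^ 2 ∧
      (ud.1 : ℝ) = x * Real.exp ((a : ℤ) : ℝ) * (1 - ud.2) := by
    intro a ha
    obtain ⟨b, hb, rfl⟩ := mem_map.1 ha
    obtain ⟨ud, h1, h2, h3, h4⟩ := exists_ud (by omega : 1 ≤ k) hm1 (hex b hb)
    rw [← hx] at h4
    exact ⟨ud, h1, h2, h3, h4⟩
  choose! f hf using hud
  have hρ0 : (1 : ℝ) ≤ (k : ℝ) ^ (1 - g / 3) := Real.one_le_rpow hk1 (by linarith)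
  have hρk : (k : ℝ) ^ (1 - g / 3) ≤ k := by
    calc (k : ℝ) ^ (1 - g / 3) ≤ (k : ℝ) ^ (1 : ℝ) :=
          Real.rpow_le_rpow_of_exponent_le hk1 (by linarith)
      _ = k := Real.rpow_one _
  have hθ2 : (k : ℝ) ^ (-(1 / 2 + g / 3)) ≤ 1 / 2 := by
    rw [Real.rpow_neg hk0.le, ← one_div]
    refine one_div_le_one_div_of_le (by norm_num) ?_
    calc (2 : ℝ) = (4 : ℝ) ^ (1 / 2 : ℝ) := by
          rw [← Real.sqrt_eq_rpow, show (4 : ℝ) = 2 ^ 2 by norm_num]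
          exact (Real.sqrt_sq (by norm_num)).symm
      _ ≤ (k : ℝ) ^ (1 / 2 : ℝ) := Real.rpow_le_rpow (by norm_num) hk4 (by norm_num)
      _ ≤ (k : ℝ) ^ (1 / 2 + g / 3) := Real.rpow_le_rpow_of_exponent_le hk1 (by linarith)
  have hA : (k : ℝ) ^ (1 / 2 - g) + 1 ≤ (k : ℝ) ^ (-(1 / 2 + g / 3)) * (k : ℝ) ^ (1 - g / 3) := by
    rw [← Real.rpow_add hk0]
    have h1 : (1 : ℝ) ≤ (k : ℝ) ^ (1 / 2 - g) := Real.one_le_rpow hk1 (by linarith)
    have h2 : (2 : ℝ) ≤ (k : ℝ) ^ (g / 3) := hk2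
    have h3 : -(1 / 2 + g / 3) + (1 - g / 3) = (1 / 2 - g) + g / 3 := by ring
    rw [h3, Real.rpow_add hk0]
    nlinarith
  have hm1' : 1 ≤ m := by omega
  have hρT : ((2 * l : ℕ) : ℝ) * (k : ℝ) ^ (1 - g / 3) ≤ k / 4 := by
    push_cast
    exact hρ4
  refine main_contra (T := 2 * l) (Nn := Nn l m) (PP l m k) (nr l m (1 / 2 + g / 3))
    (Nb l m k (1 / 2 + g / 3)) ?_ (x := x) (ρ := (k : ℝ) ^ (1 - g / 3))
    (θ := (k : ℝ) ^ (-(1 / 2 + g / 3))) (ε := 4 / ((k : ℝ) ^ m) ^ 2)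
    (B := ((2 * l : ℕ) : ℝ) ^ 2 * m * (4 ^ (2 * l) * (k : ℝ) ^ (2 * l * m + 2 * l) *
        Real.exp ((2 * l : ℕ) * (k : ℝ) ^ (1 - g / 3)))) (A := (k : ℝ) ^ (1 / 2 - g)) hx0
    hρ0 (by positivity) hθ2 (by positivity) hA ?_ ?_ ?_ (I.map Nat.castEmbedding) ?_
    (fun a => (f a).1) ?_ (fun a => (f a).2) ?_ ?_ (m / 4 + 1 + 2 * l) ?_ ?_
  · intro g'
    unfold Nb
    rw [Nat.ceil_pos]
    positivity
  · exact hB_ok l m k (by omega) hx0 hx2 (by linarith) hρk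
  · have : (0 : ℝ) < m := by exact_mod_cast hm1'
    have : (0 : ℝ) < l := by exact_mod_cast hl
    positivity
  · exact hcard_ok l m k hl (by omega) (δ := g / 3) (by positivity) rfl (by linarith) hlg hm3
  · intro a ha
    obtain ⟨b, hb, rfl⟩ := mem_map.1 ha
    refine ⟨?_, ?_⟩
    · simp
    · simpa using hI b hb
  · intro a ha
    exact (hf a ha).1
  · intro a ha
    exact ⟨(hf a ha).2.1, (hf a ha).2.2.1⟩
  · intro a ha
    exact (hf a ha).2.2.2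
  · exact hsmall_ok l m k hl hk (by linarith) hm1' hmk hm1 hm2 hρT rfl hC
  · rw [card_map, hcard]
    exact hzero_ok l m hl

/-- a window of length `k ^ η`, `η < 1/2`, contains few exceptional integers -/
theorem window_few {η : ℝ} (hη : η < 1 / 2) : ∃ M K : ℕ, ∀ k : ℕ, K ≤ k → ∀ I : Finset ℕ,
    (∀ a ∈ I, (a : ℝ) ≤ (k : ℝ) ^ η) → (∀ a ∈ I, Exceptional (k + a)) → I.card < M := by
  obtain ⟨g, hg0, hg1, hgη⟩ : ∃ g : ℝ, 0 < g ∧ g ≤ 1 / 2 ∧ η ≤ 1 / 2 - g :=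
    ⟨min (1 / 2) (1 / 2 - η), lt_min (by norm_num) (by linarith), min_le_left _ _, by
      have := min_le_right (1 / 2 : ℝ) (1 / 2 - η)
      linarith⟩
  obtain ⟨l, hl⟩ := exists_nat_ge (6 / g)
  have hlg : 2 ≤ g / 3 * l := by
    rw [div_le_iff₀ hg0] at hl
    nlinarith
  have hl1 : 1 ≤ l := by
    by_contra h
    have h1 : l = 0 := by omega
    rw [h1] at hlg
    norm_num at hlg
  obtain ⟨K, hK⟩ := eventually_atTop.1 (ev_conds l hl1 hg0
    (((2 * l : ℕ) : ℝ) ^ 3 * (8 * (2 * l + 1)) * 16 ^ (2 * l)))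
  refine ⟨4 * l * (2 * l + 1), K, fun k hk I hI hex => ?_⟩
  obtain ⟨⟨c1, c2⟩, c3, c4, c5⟩ := hK k hk
  by_contra hcard
  push Not at hcard
  obtain ⟨J, hJ, hJc⟩ := exists_subset_card_eq hcard
  have hk1 : (1 : ℝ) ≤ k := by exact_mod_cast (by omega : 1 ≤ k)
  exact window_k l k hl1 hg0 hg1 hlg c1 c2 c3 c4 c5 J
    (fun a ha => (hI a (hJ ha)).trans (Real.rpow_le_rpow_of_exponent_le hk1 hgη)) hJc
    (fun a ha => hex a (hJ ha))

/-- The number of elements of `P` in `(M, 2 M]`. -/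
theorem block_few {P : ℕ → Prop} [DecidablePred P] {η : ℝ} (h0 : 0 < η) (h1 : η < 1) {D K : ℕ}
    (hP : ∀ k : ℕ, K ≤ k → ∀ I : Finset ℕ, (∀ a ∈ I, (a : ℝ) ≤ (k : ℝ) ^ η) →
      (∀ a ∈ I, P (k + a)) → I.card < D) {M : ℕ} (hM1 : 1 ≤ M) (hMK : K ≤ M) :
    (((Ioc M (2 * M)).filter P).card : ℝ) ≤ (4 * D) * (M : ℝ) ^ (1 - η) := by
  have hM0 : (0 : ℝ) < M := by exact_mod_cast hM1
  have hMR : (1 : ℝ) ≤ M := by exact_mod_cast hM1
  have hMη1 : 1 ≤ (M : ℝ) ^ η := Real.one_le_rpow hMR h0.le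
  set h := ⌊(M : ℝ) ^ η⌋₊ with hh
  have hh1 : 1 ≤ h := Nat.one_le_floor_iff _ |>.2 hMη1
  have hh2 : (h : ℝ) ≤ (M : ℝ) ^ η := Nat.floor_le (by positivity)
  have hh3 : (M : ℝ) ^ η < h + 1 := Nat.lt_floor_add_one _
  have hhR : (1 : ℝ) ≤ h := by exact_mod_cast hh1
  set s := (Ioc M (2 * M)).filter P with hs
  -- fibres of `k ↦ k / h`
  have hfib : ∀ c ∈ s.image (fun k => k / h), (s.filter (fun k => k / h = c)).card ≤ D := by
    intro c _
    set F := s.filter (fun k => k / h = c) with hF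
    obtain ⟨k₀, hk₀⟩ : ∃ k₀, k₀ = max M (h * c) := ⟨_, rfl⟩
    have hmem : ∀ z ∈ F, k₀ ≤ z ∧ z < k₀ + h + 0 ∧ P z := by
      intro z hz
      simp only [hF, hs, mem_filter, mem_Ioc] at hz
      have h41 := Nat.div_add_mod z h
      have h42 := Nat.mod_lt z hh1
      rw [hz.2] at h41
      refine ⟨?_, ?_, hz.1.2⟩
      · rw [hk₀]
        exact max_le hz.1.1.1.le (by omega)
      · have := le_max_right M (h * c)
        omega
    have hk₀M : M ≤ k₀ := hk₀ ▸ le_max_left _ _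
    have h2 := hP k₀ (hMK.trans hk₀M) (F.image (fun z => z - k₀)) (by
      intro a ha
      obtain ⟨z, hz, rfl⟩ := mem_image.1 ha
      obtain ⟨h3, h4, _⟩ := hmem z hz
      have h6 : ((z - k₀ : ℕ) : ℝ) ≤ h := by exact_mod_cast (by omega : z - k₀ ≤ h)
      refine h6.trans (hh2.trans ?_)
      exact Real.rpow_le_rpow hM0.le (by exact_mod_cast hk₀M) h0.le) (by
      intro a ha
      obtain ⟨z, hz, rfl⟩ := mem_image.1 ha
      obtain ⟨h3, h4, h5⟩ := hmem z hz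
      rwa [show k₀ + (z - k₀) = z by omega])
    rw [card_image_of_injOn] at h2
    · exact h2.le
    · intro a ha b hb hab
      have h3 := (hmem a ha).1
      have h4 := (hmem b hb).1
      simp only at hab
      omega
  have hcard := Finset.card_le_mul_card_image s D hfib
  -- the image has few elements
  have himg : s.image (fun k => k / h) ⊆ Icc (M / h) (2 * M / h) := by
    intro c hc
    rw [mem_image] at hc
    obtain ⟨k, hk, rfl⟩ := hc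
    simp only [hs, mem_filter, mem_Ioc] at hk
    rw [mem_Icc]
    exact ⟨Nat.div_le_div_right (by omega), Nat.div_le_div_right hk.1.2⟩
  have himg' := Finset.card_le_card himg
  rw [Nat.card_Icc] at himg'
  have hdiv : 2 * M / h + 1 - M / h ≤ M / h + 2 := by
    have : 2 * M / h ≤ 2 * (M / h) + 1 := by
      have h7 : M < h * (M / h) + h := by
        have h71 := Nat.div_add_mod M h
        have h72 := Nat.mod_lt M hh1
        omega
      have h8 : 2 * M < h * (2 * (M / h) + 2) := by nlinarith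
      have := (Nat.div_lt_iff_lt_mul (by omega : 0 < h)).2 (by rw [mul_comm]; exact h8)
      omega
    omega
  have hsc : s.card ≤ D * (M / h + 2) :=
    hcard.trans (Nat.mul_le_mul le_rfl (himg'.trans hdiv))
  have hD0 : (0 : ℝ) ≤ D := Nat.cast_nonneg D
  have hsR : (s.card : ℝ) ≤ D * ((M : ℝ) / h + 2) := by
    have h9 : ((M / h : ℕ) : ℝ) ≤ (M : ℝ) / h := Nat.cast_div_le
    have h10 : (s.card : ℝ) ≤ D * (((M / h : ℕ) : ℝ) + 2) := by exact_mod_cast hsc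
    nlinarith
  have h11 : (M : ℝ) / h ≤ 2 * (M : ℝ) ^ (1 - η) := by
    rw [div_le_iff₀ (by linarith)]
    have h12 : (M : ℝ) = (M : ℝ) ^ (1 - η) * (M : ℝ) ^ η := by
      rw [← Real.rpow_add hM0]; simp
    have h13 : (M : ℝ) ^ η ≤ 2 * h := by linarith
    have h14 : 0 < (M : ℝ) ^ (1 - η) := by positivity
    calc (M : ℝ) = (M : ℝ) ^ (1 - η) * (M : ℝ) ^ η := h12
      _ ≤ (M : ℝ) ^ (1 - η) * (2 * h) := mul_le_mul_of_nonneg_left h13 h14.le
      _ = 2 * (M : ℝ) ^ (1 - η) * h := by ring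
  have h15 : 1 ≤ (M : ℝ) ^ (1 - η) := Real.one_le_rpow hMR (by linarith)
  refine hsR.trans ?_
  have h16 : (M : ℝ) / h + 2 ≤ 4 * (M : ℝ) ^ (1 - η) := by linarith
  calc (D : ℝ) * ((M : ℝ) / h + 2) ≤ D * (4 * (M : ℝ) ^ (1 - η)) := by gcongr
    _ = _ := by ring

theorem count_few {P : ℕ → Prop} [DecidablePred P] {η : ℝ} (h0 : 0 < η) (h1 : η < 1) {D K : ℕ}
    (hP : ∀ k : ℕ, K ≤ k → ∀ I : Finset ℕ, (∀ a ∈ I, (a : ℝ) ≤ (k : ℝ) ^ η) →
      (∀ a ∈ I, P (k + a)) → I.card < D) :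
    ∃ C : ℝ, ∀ N : ℕ, 1 ≤ N →
      (((Icc 1 N).filter P).card : ℝ) ≤ C * (N : ℝ) ^ (1 - η) := by
  set c := 1 - η with hc
  have hc0 : 0 < c := by linarith
  have h2c : 1 < (2 : ℝ) ^ c := Real.one_lt_rpow (by norm_num) hc0
  set C : ℝ := (4 * D) / ((2 : ℝ) ^ c - 1) with hC
  have hC0 : 0 ≤ C := div_nonneg (by positivity) (by linarith)
  -- powers of two times K₁
  obtain ⟨K1, hK1, hK1'⟩ : ∃ K1 : ℕ, 1 ≤ K1 ∧ K ≤ K1 := ⟨max K 1, le_max_right _ _, le_max_left _ _⟩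
  have hK1R : (1 : ℝ) ≤ K1 := by exact_mod_cast hK1
  have hind : ∀ j : ℕ, (((Icc 1 (2 ^ j * K1)).filter P).card : ℝ) ≤
      K1 + C * (((2 ^ j * K1 : ℕ) : ℝ)) ^ c := by
    intro j
    induction j with
    | zero =>
      have h2 : ((Icc 1 (2 ^ 0 * K1)).filter P).card ≤ K1 := by
        refine (Finset.card_filter_le _ _).trans ?_
        simp
      have h3 : (((Icc 1 (2 ^ 0 * K1)).filter P).card : ℝ) ≤ K1 := by exact_mod_cast h2
      have h4 : 0 ≤ C * (((2 ^ 0 * K1 : ℕ) : ℝ)) ^ c := by positivity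
      linarith
    | succ j ih =>
      set M := 2 ^ j * K1 with hM
      have hM1 : 1 ≤ M := Nat.mul_pos (by positivity) hK1
      have hMK : K ≤ M := hK1'.trans (Nat.le_mul_of_pos_left _ (by positivity))
      have hM2 : 2 ^ (j + 1) * K1 = 2 * M := by rw [hM]; ring
      rw [hM2]
      have hsplit : (Icc 1 (2 * M)).filter P ⊆ (Icc 1 M).filter P ∪ (Ioc M (2 * M)).filter P := by
        intro k hk
        simp only [mem_filter, mem_Icc, mem_union, mem_Ioc] at hk ⊢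
        rcases le_or_gt k M with h | h
        · left; exact ⟨⟨hk.1.1, h⟩, hk.2⟩
        · right; exact ⟨⟨h, hk.1.2⟩, hk.2⟩
      have h5 := (Finset.card_le_card hsplit).trans (Finset.card_union_le _ _)
      have h6 : (((Icc 1 (2 * M)).filter P).card : ℝ) ≤ (((Icc 1 M).filter P).card : ℝ) +
          (((Ioc M (2 * M)).filter P).card : ℝ) := by exact_mod_cast h5
      have h7 := block_few h0 h1 hP hM1 hMK
      rw [← hc] at h7
      have hM0 : (0 : ℝ) ≤ M := by positivity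
      have h8 : ((2 * M : ℕ) : ℝ) ^ c = (2 : ℝ) ^ c * (M : ℝ) ^ c := by
        push_cast
        rw [Real.mul_rpow (by norm_num) hM0]
      rw [h8]
      have h9 : C * ((2 : ℝ) ^ c * (M : ℝ) ^ c) = C * (M : ℝ) ^ c + (4 * D) * (M : ℝ) ^ c := by
        have : C * ((2 : ℝ) ^ c - 1) = 4 * D := by
          rw [hC]
          exact div_mul_cancel₀ _ (sub_pos.2 h2c).ne'
        linear_combination (M : ℝ) ^ c * this
      rw [h9]
      linarith
  refine ⟨K1 + C * (2 * K1 : ℝ) ^ c, fun N hN => ?_⟩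
  have hNR : (1 : ℝ) ≤ N := by exact_mod_cast hN
  have hN0 : (0 : ℝ) < N := by linarith
  -- choose j with N ≤ 2 ^ j < 2 N
  obtain ⟨j, hj1, hj2⟩ : ∃ j : ℕ, N ≤ 2 ^ j ∧ 2 ^ j ≤ 2 * N := by
    refine ⟨Nat.clog 2 N, Nat.le_pow_clog (by norm_num) N, ?_⟩
    rcases Nat.eq_or_lt_of_le hN with h | h
    · rw [← h]; simp
    · have := Nat.pow_pred_clog_lt_self (b := 2) (by norm_num) h
      have h3 : 0 < Nat.clog 2 N := Nat.clog_pos (by norm_num) h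
      have h4 : 2 ^ Nat.clog 2 N = 2 * 2 ^ (Nat.clog 2 N).pred := by
        rw [← pow_succ']; congr 1; exact (Nat.succ_pred_eq_of_pos h3).symm
      omega
  have hsub : (Icc 1 N).filter P ⊆ (Icc 1 (2 ^ j * K1)).filter P := by
    intro k hk
    simp only [mem_filter, mem_Icc] at hk ⊢
    refine ⟨⟨hk.1.1, hk.1.2.trans (hj1.trans (Nat.le_mul_of_pos_right _ hK1))⟩, hk.2⟩
  have h10 : (((Icc 1 N).filter P).card : ℝ) ≤ (((Icc 1 (2 ^ j * K1)).filter P).card : ℝ) := by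
    exact_mod_cast Finset.card_le_card hsub
  have h11 : (((2 ^ j * K1 : ℕ) : ℝ)) ≤ 2 * K1 * N := by
    have : 2 ^ j * K1 ≤ 2 * N * K1 := Nat.mul_le_mul hj2 le_rfl
    have h12 : ((2 ^ j * K1 : ℕ) : ℝ) ≤ ((2 * N * K1 : ℕ) : ℝ) := by exact_mod_cast this
    push_cast at h12 ⊢
    linarith
  have h13 : (((2 ^ j * K1 : ℕ) : ℝ)) ^ c ≤ (2 * K1 * N : ℝ) ^ c :=
    Real.rpow_le_rpow (by positivity) h11 hc0.le
  rw [Real.mul_rpow (by positivity) hN0.le] at h13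
  have h14 : 1 ≤ (N : ℝ) ^ c := Real.one_le_rpow hNR hc0.le
  have h15 : (K1 : ℝ) ≤ K1 * (N : ℝ) ^ c := by nlinarith
  calc (((Icc 1 N).filter P).card : ℝ) ≤ K1 + C * (((2 ^ j * K1 : ℕ) : ℝ)) ^ c := h10.trans (hind j)
    _ ≤ K1 * (N : ℝ) ^ c + C * ((2 * K1 : ℝ) ^ c * (N : ℝ) ^ c) := by
      refine add_le_add h15 (mul_le_mul_of_nonneg_left h13 hC0)
    _ = (K1 + C * (2 * K1 : ℝ) ^ c) * (N : ℝ) ^ c := by ring

end Pool.Agent.LibHT14
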